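import Pool.Agent.Lib.MP_9d59aa_al.Basic

open Filter Topology Set
open scoped commutatorElement

namespace Pool.Agent.Lib.MP_9d59aa_al

lemma P_ext {g h : P} (H : ∀ y, g.1 y = h.1 y) : g = h := by
  apply Subtype.ext
  ext y
  exact H y

@[simp] lemma P_mul_apply (g h : P) (y : ℝ) : (g * h).1 y = g.1 (h.1 y) := rfl
@[simp] lemma P_one_apply (y : ℝ) : (1 : P).1 y = y := rfl
@[simp] lemma P_inv_apply_self (g : P) (y : ℝ) : (g⁻¹).1 (g.1 y) = y := RelIso.inv_apply_self _ _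
@[simp] lemma P_apply_inv_self (g : P) (y : ℝ) : g.1 ((g⁻¹).1 y) = y := RelIso.apply_inv_self _ _

lemma P_inv_eq_iff (g : P) (y z : ℝ) : (g⁻¹).1 y = z ↔ g.1 z = y := by
  constructor
  · rintro rfl; simp
  · rintro rfl; simp

def Pp : Subgroup P where
  carrier := {g | ∀ᶠ y in atTop, g.1 y = y}
  one_mem' := by simp
  mul_mem' := by
    intro g h hg hh
    filter_upwards [hg, hh] with y h1 h2
    simp [h1, h2]
  inv_mem' := by
    intro g hg
    filter_upwards [hg] with y h1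
    rw [P_inv_eq_iff, h1]

def Pm : Subgroup P where
  carrier := {g | ∀ᶠ y in atBot, g.1 y = y}
  one_mem' := by simp
  mul_mem' := by
    intro g h hg hh
    filter_upwards [hg, hh] with y h1 h2
    simp [h1, h2]
  inv_mem' := by
    intro g hg
    filter_upwards [hg] with y h1
    rw [P_inv_eq_iff, h1]

instance : Pp.Normal := ⟨fun n hn g => by
  have := (g⁻¹).1.tendsto_atTop.eventually hn
  filter_upwards [this] with y hy
  simp only [P_mul_apply]
  rw [hy, P_apply_inv_self]⟩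

instance : Pm.Normal := ⟨fun n hn g => by
  have := (g⁻¹).1.tendsto_atBot.eventually hn
  filter_upwards [this] with y hy
  simp only [P_mul_apply]
  rw [hy, P_apply_inv_self]⟩

def Fc : Subgroup P := Pp ⊓ Pm

instance : Fc.Normal := by unfold Fc; infer_instance

def N : Subgroup P := ⁅Fc, Fc⁆

instance : N.Normal := by unfold N; infer_instance

lemma mem_Pp_iff {g : P} : g ∈ Pp ↔ ∃ R ∈ A, ∀ y, R ≤ y → g.1 y = y := by
  constructor
  · intro h
    obtain ⟨R, hR⟩ := eventually_atTop.1 h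
    obtain ⟨a, ha, h1⟩ := exists_A_gt R
    exact ⟨a, ha, fun y hy => hR y (h1.le.trans hy)⟩
  · rintro ⟨R, -, hR⟩
    exact eventually_atTop.2 ⟨R, hR⟩

lemma mem_Pm_iff {g : P} : g ∈ Pm ↔ ∃ R ∈ A, ∀ y, y ≤ R → g.1 y = y := by
  constructor
  · intro h
    obtain ⟨R, hR⟩ := eventually_atBot.1 h
    obtain ⟨a, ha, h1⟩ := exists_A_lt R
    exact ⟨a, ha, fun y hy => hR y (hy.trans h1.le)⟩
  · rintro ⟨R, -, hR⟩
    exact eventually_atBot.2 ⟨R, hR⟩

lemma P_commute_of_disjoint {g h : P} (H : ∀ y, g.1 y = y ∨ h.1 y = y) : Commute g h := by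
  have := commute_of_disjoint H
  exact Subtype.ext this

lemma commutator_mem_N {w b : P} (hw : w ∈ Pp) (hb : b ∈ Pm) : ⁅w, b⁆ ∈ N := by
  obtain ⟨R, hR, hw1⟩ := mem_Pp_iff.1 hw
  obtain ⟨x, hx, hb1⟩ := mem_Pm_iff.1 hb
  obtain ⟨lo, hlo, h1⟩ := exists_A_lt (min x (w.1 x))
  obtain ⟨k, hk, k1, k2⟩ := exists_cutL w.2 hlo hx (h1.trans_le (min_le_left _ _))
    (h1.trans_le (min_le_right _ _))
  obtain ⟨R', hR', h2⟩ := exists_A_gt (max R x)
  obtain ⟨hi, hhi, h3⟩ := exists_A_gt (max R' (b.1 R'))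
  obtain ⟨l, hl, l1, l2⟩ := exists_cutR b.2 hR' hhi ((le_max_left _ _).trans_lt h3)
    ((le_max_right _ _).trans_lt h3)
  set w' : P := ⟨k, hk⟩
  set b' : P := ⟨l, hl⟩
  have hw'R : ∀ y, R' ≤ y → w'.1 y = y := fun y hy => by
    have : max R x ≤ y := h2.le.trans hy
    show k y = y
    rw [k2 _ ((le_max_right _ _).trans this), hw1 _ ((le_max_left _ _).trans this)]
  have c1 : Commute (w⁻¹ * w') b := by
    apply P_commute_of_disjoint
    intro y
    rcases le_total x y with h | h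
    · left
      rw [P_mul_apply, P_inv_eq_iff]
      exact (k2 _ h).symm
    · right; exact hb1 _ h
  have c2 : Commute (b⁻¹ * b') w' := by
    apply P_commute_of_disjoint
    intro y
    rcases le_total y R' with h | h
    · left
      rw [P_mul_apply, P_inv_eq_iff]
      exact (l1 _ h).symm
    · right; exact hw'R _ h
  have e1 : ⁅w, b⁆ = ⁅w', b⁆ := by
    have : w' * b * w'⁻¹ = w * b * w⁻¹ := by
      calc w' * b * w'⁻¹ = w * ((w⁻¹ * w') * b * (w⁻¹ * w')⁻¹) * w⁻¹ := by group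
        _ = w * b * w⁻¹ := by rw [c1.eq]; group
    rw [commutatorElement_def, commutatorElement_def, this]
  have e2 : ⁅w', b⁆ = ⁅w', b'⁆ := by
    have : b' * w'⁻¹ * b'⁻¹ = b * w'⁻¹ * b⁻¹ := by
      calc b' * w'⁻¹ * b'⁻¹ = b * ((b⁻¹ * b') * w'⁻¹ * (b⁻¹ * b')⁻¹) * b⁻¹ := by group
        _ = b * w'⁻¹ * b⁻¹ := by rw [c2.inv_right.eq]; group
    calc ⁅w', b⁆ = w' * (b * w'⁻¹ * b⁻¹) := by rw [commutatorElement_def]; group
      _ = w' * (b' * w'⁻¹ * b'⁻¹) := by rw [this]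
      _ = ⁅w', b'⁆ := by rw [commutatorElement_def]; group
  rw [e1, e2]
  refine Subgroup.commutator_mem_commutator ⟨?_, ?_⟩ ⟨?_, ?_⟩
  · exact mem_Pp_iff.2 ⟨R', hR', hw'R⟩
  · exact mem_Pm_iff.2 ⟨lo, hlo, k1⟩
  · exact mem_Pp_iff.2 ⟨hi, hhi, l2⟩
  · obtain ⟨z, hz, h4⟩ := exists_A_lt (min x R')
    refine mem_Pm_iff.2 ⟨z, hz, fun y hy => ?_⟩
    have := hy.trans h4.le
    show l y = y
    rw [l1 _ (this.trans (min_le_right _ _)), hb1 _ (this.trans (min_le_left _ _))]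

/-- quotient map to P / N -/
abbrev qN : P →* P ⧸ N := QuotientGroup.mk' N
/-- germ at +infinity -/
abbrev gm : P →* P ⧸ Pp := QuotientGroup.mk' Pp

lemma commute_qN {w b : P} (hw : w ∈ Pp) (hb : b ∈ Pm) : Commute (qN w) (qN b) := by
  rw [← commutatorElement_eq_one_iff_commute, ← map_commutatorElement]
  exact (QuotientGroup.eq_one_iff _).2 (commutator_mem_N hw hb)

lemma gm_eq_iff {g h : P} : gm g = gm h ↔ g⁻¹ * h ∈ Pp := by
  simp only [QuotientGroup.mk'_apply, QuotientGroup.eq]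

lemma gm_eq_of {g h : P} (H : ∀ᶠ y in atTop, g.1 y = h.1 y) : gm g = gm h := by
  rw [gm_eq_iff]
  filter_upwards [H] with y hy
  rw [P_mul_apply, P_inv_eq_iff, hy]

lemma conj_qN {h α β : P} (e : gm α = gm h) (hβ : β ∈ Pm) :
    qN h * qN β * (qN h)⁻¹ = qN α * qN β * (qN α)⁻¹ := by
  have c := commute_qN (gm_eq_iff.1 e) hβ
  rw [map_mul, map_inv] at c
  calc qN h * qN β * (qN h)⁻¹
      = qN α * (((qN α)⁻¹ * qN h) * qN β * ((qN α)⁻¹ * qN h)⁻¹) * (qN α)⁻¹ := by group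
    _ = qN α * qN β * (qN α)⁻¹ := by rw [c.eq]; group

noncomputable def aff (s : ℝ) (hs : s ∈ Lam) (c : A) : P :=
  ⟨affIso s c (Lam_pos hs), affIso_mem hs c.2⟩

@[simp] lemma aff_apply (s : ℝ) (hs : s ∈ Lam) (c : A) (y : ℝ) : (aff s hs c).1 y = s * y + c := rfl

/-- an element of Lam as an element of A -/
def toA (s : ℝ) (hs : s ∈ Lam) : A := ⟨s, Lam_sub_A hs⟩

@[simp] lemma toA_coe (s : ℝ) (hs : s ∈ Lam) : (toA s hs : ℝ) = s := rfl

noncomputable def bk (x : A) (s : ℝ) (hs : s ∈ Lam) : P :=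
  ⟨glue 1 (aff s hs (x - toA s hs * x)).1 x (by simp),
    glue_mem P.one_mem (aff s hs _).2 x.2 _⟩

lemma bk_le (x : A) (s : ℝ) (hs : s ∈ Lam) {y : ℝ} (hy : y ≤ x) : (bk x s hs).1 y = y :=
  glue_le 1 (aff s hs (x - toA s hs * x)).1 x (by simp) hy

lemma bk_ge (x : A) (s : ℝ) (hs : s ∈ Lam) {y : ℝ} (hy : (x : ℝ) ≤ y) :
    (bk x s hs).1 y = s * y + (x - s * x) := by
  have := glue_ge 1 (aff s hs (x - toA s hs * x)).1 x (by simp) hy
  refine Eq.trans this ?_
  simp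

lemma bk_mem_Pm (x : A) (s : ℝ) (hs : s ∈ Lam) : bk x s hs ∈ Pm :=
  mem_Pm_iff.2 ⟨x, x.2, fun _ hy => bk_le x s hs hy⟩

lemma bk_mul (x : A) {s t : ℝ} (hs : s ∈ Lam) (ht : t ∈ Lam) :
    bk x s hs * bk x t ht = bk x (s * t) (Lam_mul hs ht) := by
  apply P_ext
  intro y
  rw [P_mul_apply]
  rcases le_total y x with h | h
  · rw [bk_le _ _ _ h, bk_le _ _ _ h, bk_le _ _ _ h]
  · have := Lam_pos ht
    rw [bk_ge _ _ _ h, bk_ge _ _ _ h, bk_ge _ _ _ (by nlinarith)]
    ring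

lemma bk_one (x : A) {s : ℝ} (hs : s ∈ Lam) (h1 : s = 1) : bk x s hs = 1 := by
  subst h1
  apply P_ext
  intro y
  rcases le_total y x with h | h
  · rw [bk_le _ _ _ h]; rfl
  · rw [bk_ge _ _ _ h]; simp

lemma bk_inv (x : A) {s : ℝ} (hs : s ∈ Lam) : (bk x s hs)⁻¹ = bk x s⁻¹ (Lam_inv hs) := by
  rw [inv_eq_iff_mul_eq_one, bk_mul]
  exact bk_one _ _ (mul_inv_cancel₀ (Lam_pos hs).ne')

lemma aff_conj_bk (s : ℝ) (hs : s ∈ Lam) (c x : A) (t : ℝ) (ht : t ∈ Lam) :
    aff s hs c * bk x t ht * (aff s hs c)⁻¹ = bk (toA s hs * x + c) t ht := by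
  rw [mul_inv_eq_iff_eq_mul]
  apply P_ext
  intro y
  have := Lam_pos hs
  simp only [P_mul_apply, aff_apply]
  rcases le_total y x with h | h
  · rw [bk_le _ _ _ h, bk_le]
    push_cast [toA_coe]
    nlinarith
  · rw [bk_ge _ _ _ h, bk_ge]
    · push_cast [toA_coe]; ring
    · push_cast [toA_coe]; nlinarith

noncomputable def tr (c : A) : P := aff 1 one_mem_Lam c

@[simp] lemma tr_apply (c : A) (y : ℝ) : (tr c).1 y = y + c := by simp [tr]

lemma tr_add (a b : A) : tr (a + b) = tr a * tr b := by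
  apply P_ext; intro y; simp; ring

noncomputable def trHom : Multiplicative A →* P :=
  MonoidHom.mk' (fun c => tr c.toAdd) (fun a b => by simp [tr_add])

lemma tr_zsmul (n : ℤ) (z : A) : tr (n • z) = tr z ^ n := by
  have := map_zpow trHom (Multiplicative.ofAdd z) n
  exact this

lemma tr_neg (z : A) : tr (-z) = (tr z)⁻¹ := by
  have := tr_zsmul (-1) z
  simpa using this

lemma tr_conj_bk (c x : A) (t : ℝ) (ht : t ∈ Lam) :
    tr c * bk x t ht * (tr c)⁻¹ = bk (x + c) t ht := by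
  have := aff_conj_bk 1 one_mem_Lam c x t ht
  have e : toA 1 one_mem_Lam * x + c = x + c := by
    apply Subtype.ext; simp
  rw [e] at this
  exact this

noncomputable def Sx (x : A) : P := bk x 2 two_mem_Lam * (bk 0 2 two_mem_Lam)⁻¹

lemma Sx_mem_Pm (x : A) : Sx x ∈ Pm :=
  Pm.mul_mem (bk_mem_Pm _ _ _) (Pm.inv_mem (bk_mem_Pm _ _ _))

lemma gm_Sx (x : A) : gm (Sx x) = gm (tr (-x)) := by
  apply gm_eq_of
  filter_upwards [eventually_ge_atTop (0 : ℝ), eventually_ge_atTop (2 * (x : ℝ))] with y h1 h2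
  rw [Sx, bk_inv, P_mul_apply, bk_ge 0 _ _ (by simpa using h1), bk_ge]
  · simp; ring
  · simp; linarith

lemma locally_cyclic (c y : A) : ∃ (z : A) (i j : ℤ), c = i • z ∧ y = j • z := by
  obtain ⟨c, m, n, rfl⟩ := c
  obtain ⟨y, m', n', rfl⟩ := y
  refine ⟨⟨(1 : ℤ) / 6 ^ (n + n'), 1, n + n', rfl⟩, m * 6 ^ n', m' * 6 ^ n, ?_, ?_⟩
  · apply Subtype.ext
    rw [AddSubgroupClass.coe_zsmul, zsmul_eq_mul]
    push_cast
    field_simp
    ring
  · apply Subtype.ext
    rw [AddSubgroupClass.coe_zsmul, zsmul_eq_mul]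
    push_cast
    field_simp
    ring

lemma tr_conj_Sx (c y : A) : qN (tr c) * qN (Sx y) * (qN (tr c))⁻¹ = qN (Sx y) := by
  obtain ⟨z, i, j, rfl, rfl⟩ := locally_cyclic c y
  have h1 : gm (Sx z ^ j) = gm (Sx (j • z)) := by
    rw [map_zpow, gm_Sx, gm_Sx, ← map_zpow, ← tr_zsmul, smul_neg]
  have h2 : gm (tr (i • z)) = gm (Sx z ^ (-i)) := by
    rw [map_zpow, gm_Sx, ← map_zpow, ← tr_zsmul]
    congr 2
    simp
  have c1 := commute_qN (gm_eq_iff.1 h1) (Sx_mem_Pm z)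
  rw [map_mul, map_inv, map_zpow] at c1
  have c2 : Commute (qN (Sx (j • z))) (qN (Sx z)) := by
    have : qN (Sx (j • z)) = qN (Sx z) ^ j * ((qN (Sx z) ^ j)⁻¹ * qN (Sx (j • z))) := by group
    rw [this]
    exact Commute.mul_left ((Commute.refl _).zpow_left j) c1
  rw [← conj_qN h2 (Sx_mem_Pm _), map_zpow, ← (c2.zpow_right (-i)).eq]
  group

lemma qN_Sx_add (y c : A) : qN (Sx (y + c)) = qN (Sx y) * qN (Sx c) := by
  have h := tr_conj_Sx c y
  have e : tr c * Sx y * (tr c)⁻¹ = bk (y + c) 2 two_mem_Lam * (bk c 2 two_mem_Lam)⁻¹ := by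
    rw [← tr_conj_bk c y]
    conv_rhs => rw [← zero_add c, ← tr_conj_bk c 0, zero_add]
    rw [Sx]; group
  rw [← map_inv, ← map_mul, ← map_mul, e] at h
  rw [← h, ← map_mul]
  congr 1
  simp only [Sx]; group

lemma Sx_zero : Sx 0 = 1 := by simp [Sx]

lemma qN_Sx_neg (y : A) : qN (Sx (-y)) = (qN (Sx y))⁻¹ := by
  rw [eq_inv_iff_mul_eq_one, ← qN_Sx_add, neg_add_cancel, Sx_zero, map_one]

lemma gm_bk_zero (s : ℝ) (hs : s ∈ Lam) : gm (aff s hs 0) = gm (bk 0 s hs) := by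
  apply gm_eq_of
  filter_upwards [eventually_ge_atTop (0 : ℝ)] with y h1
  rw [bk_ge 0 _ _ (by simpa using h1)]
  simp

lemma bk_conj_Sx (s : ℝ) (hs : s ∈ Lam) (a : A) :
    qN (bk 0 s hs) * qN (Sx a) * (qN (bk 0 s hs))⁻¹ = qN (Sx (toA s hs * a)) := by
  rw [conj_qN (gm_bk_zero s hs) (Sx_mem_Pm a), ← map_inv, ← map_mul, ← map_mul]
  congr 1
  have e1 := aff_conj_bk s hs 0 a 2 two_mem_Lam
  have e2 := aff_conj_bk s hs 0 0 2 two_mem_Lam
  rw [add_zero] at e1
  rw [mul_zero, add_zero] at e2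
  rw [Sx, Sx, ← e1]
  conv_rhs => rw [← e2]
  group

/-- normal forms in the quotient -/
def Msub : Subgroup P where
  carrier := {g | ∃ (a : A) (s : ℝ) (hs : s ∈ Lam), qN g = qN (Sx a) * qN (bk 0 s hs)}
  one_mem' := ⟨0, 1, one_mem_Lam, by rw [Sx_zero, bk_one _ _ rfl]; simp⟩
  mul_mem' := by
    rintro g h ⟨a, s, hs, e1⟩ ⟨b, t, ht, e2⟩
    refine ⟨a + toA s hs * b, s * t, Lam_mul hs ht, ?_⟩
    rw [map_mul, e1, e2, qN_Sx_add, ← bk_conj_Sx, ← bk_mul 0 hs ht, map_mul]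
    group
  inv_mem' := by
    rintro g ⟨a, s, hs, e1⟩
    refine ⟨toA _ (Lam_inv hs) * (-a), s⁻¹, Lam_inv hs, ?_⟩
    rw [map_inv, e1, ← bk_conj_Sx, qN_Sx_neg, ← bk_inv 0 hs, map_inv]
    group

lemma bk_mem_Msub (x : A) (s : ℝ) (hs : s ∈ Lam) : bk x s hs ∈ Msub := by
  refine ⟨-x + toA s hs * x, s, hs, ?_⟩
  have e1 := tr_conj_bk x 0 s hs
  rw [zero_add] at e1
  have e2 : gm (tr x) = gm (Sx (-x)) := by rw [gm_Sx, neg_neg]
  rw [← e1, map_mul, map_mul, map_inv, ← conj_qN e2 (bk_mem_Pm _ _ _), qN_Sx_add, ← bk_conj_Sx,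
    qN_Sx_neg]
  group

lemma eq_at_of_eqOn_Ioo {f g : ℝ → ℝ} (hf : Continuous f) (hg : Continuous g) {a b : ℝ}
    (hab : a < b) (H : ∀ y ∈ Ioo a b, f y = g y) : ∀ y ∈ Icc a b, f y = g y := by
  have : EqOn f g (closure (Ioo a b)) := EqOn.closure H hf hg
  rw [closure_Ioo hab.ne] at this
  exact this

lemma generation (K : Subgroup P) (hK : ∀ x s hs, bk x s hs ∈ K) (D : Finset ℝ) :
    ∀ f : P, f ∈ Pm → (∀ x ∈ D, x ∈ A) → (∀ x ∉ D, LocAff f.1 x) → f ∈ K := by
  induction D using Finset.induction_on_min with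
  | empty =>
    intro f hf _ H
    obtain ⟨R, -, hR⟩ := mem_Pm_iff.1 hf
    have := affine_on_of_locAff (S := univ) isPreconnected_univ (fun x _ => H x (by simp))
      (x₀ := R - 1) (mem_univ _) (s := 1) (c := 0) (by
        filter_upwards [Iio_mem_nhds (show R - 1 < R by linarith)] with y hy
        rw [hR y (le_of_lt hy)]; simp)
    have : f = 1 := P_ext fun y => by simpa using (this y (mem_univ _)).self_of_nhds
    rw [this]; exact K.one_mem
  | insert a s hlt ih =>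
    intro f hf hA H
    obtain ⟨R, -, hR⟩ := mem_Pm_iff.1 hf
    have haA : a ∈ A := hA a (by simp)
    have h1 : ∀ y, y < a → f.1 y = y := by
      have := affine_on_of_locAff (S := Iio a) isPreconnected_Iio (fun x hx => H x (by
        simp only [Finset.mem_insert, not_or]
        exact ⟨ne_of_lt hx, fun h => lt_asymm hx (hlt x h)⟩))
        (x₀ := min R a - 1) (by simp only [mem_Iio]; linarith [min_le_right R a])
        (s := 1) (c := 0) (by
          filter_upwards [Iio_mem_nhds (show min R a - 1 < R by linarith [min_le_left R a])]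
            with y hy
          rw [hR y (le_of_lt hy)]; simp)
      intro y hy
      simpa using (this y hy).self_of_nhds
    have h2 : f.1 a = a :=
      eq_at_of_eqOn_Ioo f.1.continuous continuous_id (show a - 1 < a by linarith)
        (fun y hy => h1 y hy.2) a ⟨by linarith, le_rfl⟩
    obtain ⟨b, hab, hb⟩ : ∃ b, a < b ∧ ∀ x ∈ s, b ≤ x := by
      rcases s.eq_empty_or_nonempty with rfl | hne
      · exact ⟨a + 1, by linarith, by simp⟩
      · exact ⟨s.min' hne, hlt _ (s.min'_mem hne), fun x hx => s.min'_le x hx⟩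
    have hloc : ∀ x ∈ Ioo a b, LocAff f.1 x := fun x hx => H x (by
      simp only [Finset.mem_insert, not_or]
      exact ⟨ne_of_gt hx.1, fun h => absurd (hb x h) (not_le.2 hx.2)⟩)
    have hmid : (a + b) / 2 ∈ Ioo a b := ⟨by linarith, by linarith⟩
    obtain ⟨t, ht, c, hc⟩ := hloc _ hmid
    have h3 := affine_on_of_locAff isPreconnected_Ioo hloc hmid hc
    have h4 : ∀ y ∈ Icc a b, f.1 y = t * y + c :=
      eq_at_of_eqOn_Ioo f.1.continuous (by fun_prop) hab (fun y hy => (h3 y hy).self_of_nhds)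
    have h5 : c = a - t * a := by
      have := h4 a ⟨le_rfl, hab.le⟩
      linarith
    set β := bk ⟨a, haA⟩ t ht with hβ
    have h6 : ∀ y, y ≤ b → (β⁻¹ * f).1 y = y := by
      intro y hy
      rw [P_mul_apply, P_inv_eq_iff]
      rcases le_or_gt a y with h | h
      · rw [h4 y ⟨h, hy⟩, hβ, bk_ge _ _ _ h, h5]
      · rw [h1 y h, hβ, bk_le _ _ _ h.le]
    have h7 : β⁻¹ * f ∈ K := by
      refine ih _ (eventually_atBot.2 ⟨b, h6⟩) (fun x hx => hA x (by simp [hx])) ?_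
      intro x hx
      rcases lt_or_ge x b with h | h
      · refine (locAff_id x).congr ?_
        filter_upwards [Iio_mem_nhds h] with y hy
        exact h6 y (le_of_lt hy)
      · have hax : a < x := hab.trans_le h
        refine LocAff.comp (g := (β⁻¹).1) (h := f.1) f.1.continuous.continuousAt ?_
          (H x (by simp only [Finset.mem_insert, not_or]; exact ⟨ne_of_gt hax, hx⟩))
        have hfx : a < f.1 x := by
          rw [← h2]; exact f.1.strictMono hax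
        refine ⟨t⁻¹, Lam_inv ht, a - t⁻¹ * a, ?_⟩
        filter_upwards [Ioi_mem_nhds hfx] with y hy
        rw [hβ, bk_inv, bk_ge _ _ _ (le_of_lt hy)]
    have : f = β * (β⁻¹ * f) := by group
    rw [this]
    exact K.mul_mem (hK _ _ _) h7

theorem Fc_le_N : Fc ≤ N := by
  rintro f ⟨hp, hm⟩
  obtain ⟨R, -, hR⟩ := mem_Pp_iff.1 hp
  obtain ⟨L, -, hL⟩ := mem_Pm_iff.1 hm
  obtain ⟨-, D, hD, hDf, hloc⟩ := f.2
  have hM : f ∈ Msub := by
    refine generation Msub bk_mem_Msub (hDf L R).toFinset f hm ?_ ?_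
    · intro x hx
      rw [Finite.mem_toFinset] at hx
      exact hD hx.1
    · intro x hx
      rw [Finite.mem_toFinset] at hx
      by_cases hxD : x ∈ D
      · have : ¬ (L ≤ x ∧ x ≤ R) := fun h => hx ⟨hxD, h⟩
        rw [not_and_or, not_le, not_le] at this
        rcases this with h | h
        · refine (locAff_id x).congr ?_
          filter_upwards [Iio_mem_nhds h] with y hy
          exact hL y (le_of_lt hy)
        · refine (locAff_id x).congr ?_
          filter_upwards [Ioi_mem_nhds h] with y hy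
          exact hR y (le_of_lt hy)
      · exact hloc x hxD
  obtain ⟨a, s, hs, e⟩ := hM
  rw [← map_mul] at e
  have hN : f⁻¹ * (Sx a * bk 0 s hs) ∈ N := by
    simpa only [QuotientGroup.mk'_apply, QuotientGroup.eq] using e
  have hle : N ≤ Pp := (Subgroup.commutator_le_left _ _).trans inf_le_left
  have h1 : gm (Sx a * bk 0 s hs) = 1 := by
    rw [← gm_eq_iff.2 (hle hN)]
    exact (QuotientGroup.eq_one_iff _).2 hp
  rw [map_mul, gm_Sx, ← gm_bk_zero, ← map_mul] at h1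
  have h2 : tr (-a) * aff s hs 0 ∈ Pp := (QuotientGroup.eq_one_iff _).1 h1
  obtain ⟨T, -, hT⟩ := mem_Pp_iff.1 h2
  have e1 := hT T le_rfl
  have e2 := hT (T + 1) (by linarith)
  simp at e1 e2
  have hs1 : s = 1 := by linarith
  have ha : a = 0 := by
    apply Subtype.ext
    rw [hs1] at e1
    show (a : ℝ) = 0
    linarith
  rw [ha, Sx_zero, bk_one _ _ hs1] at e
  exact (QuotientGroup.eq_one_iff _).1 (by simpa using e)

/-- elements supported in a compact subset of (0,1) -/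
def F01 : Subgroup P where
  carrier := {g | ∃ η : ℝ, 0 < η ∧ (∀ y, y ≤ η → g.1 y = y) ∧ (∀ y, 1 - η ≤ y → g.1 y = y)}
  one_mem' := ⟨1, one_pos, by simp, by simp⟩
  mul_mem' := by
    rintro g h ⟨η, hη, g1, g2⟩ ⟨ε, hε, h1, h2⟩
    refine ⟨min η ε, lt_min hη hε, fun y hy => ?_, fun y hy => ?_⟩
    · rw [P_mul_apply, h1 y (hy.trans (min_le_right _ _)), g1 y (hy.trans (min_le_left _ _))]
    · rw [P_mul_apply, h2 y (by linarith [min_le_right η ε]),
        g2 y (by linarith [min_le_left η ε])]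
  inv_mem' := by
    rintro g ⟨η, hη, g1, g2⟩
    exact ⟨η, hη, fun y hy => by rw [P_inv_eq_iff, g1 y hy],
      fun y hy => by rw [P_inv_eq_iff, g2 y hy]⟩

lemma conj_mem_F01 {f h : P} {R : ℝ} (f1 : ∀ y, y ≤ -R → f.1 y = y) (f2 : ∀ y, R ≤ y → f.1 y = y)
    (h1 : 0 < h.1 (-R)) (h2 : h.1 R < 1) : h * f * h⁻¹ ∈ F01 := by
  refine ⟨min (h.1 (-R)) (1 - h.1 R), lt_min h1 (by linarith), fun y hy => ?_, fun y hy => ?_⟩
  · simp only [P_mul_apply]
    rw [f1, P_apply_inv_self]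
    apply h.1.le_iff_le.1
    rw [P_apply_inv_self]
    exact hy.trans (min_le_left _ _)
  · simp only [P_mul_apply]
    rw [f2, P_apply_inv_self]
    apply h.1.le_iff_le.1
    rw [P_apply_inv_self]
    linarith [min_le_right (h.1 (-R)) (1 - h.1 R)]

lemma Fc_bound {f : P} (hf : f ∈ Fc) :
    ∃ R, (∀ y, y ≤ -R → f.1 y = y) ∧ (∀ y, R ≤ y → f.1 y = y) := by
  obtain ⟨R, -, hR⟩ := mem_Pp_iff.1 hf.1
  obtain ⟨L, -, hL⟩ := mem_Pm_iff.1 hf.2
  exact ⟨max R (-L), fun y hy => hL y (by linarith [le_max_right R (-L)]),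
    fun y hy => hR y ((le_max_left _ _).trans hy)⟩

def Good : Subgroup P where
  carrier := {f | ∃ R : ℝ, ∀ h : P, 0 < h.1 (-R) → h.1 R < 1 → h * f * h⁻¹ ∈ ⁅F01, F01⁆}
  one_mem' := ⟨0, fun h _ _ => by simp⟩
  mul_mem' := by
    rintro f g ⟨R, hR⟩ ⟨S, hS⟩
    refine ⟨max R S, fun h h1 h2 => ?_⟩
    have e : h * (f * g) * h⁻¹ = (h * f * h⁻¹) * (h * g * h⁻¹) := by group
    rw [e]
    refine Subgroup.mul_mem _ (hR h ?_ ?_) (hS h ?_ ?_)
    · exact h1.trans_le (h.1.monotone (by linarith [le_max_left R S]))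
    · exact (h.1.monotone (le_max_left R S)).trans_lt h2
    · exact h1.trans_le (h.1.monotone (by linarith [le_max_right R S]))
    · exact (h.1.monotone (le_max_right R S)).trans_lt h2
  inv_mem' := by
    rintro f ⟨R, hR⟩
    refine ⟨R, fun h h1 h2 => ?_⟩
    have e : h * f⁻¹ * h⁻¹ = (h * f * h⁻¹)⁻¹ := by group
    rw [e]
    exact Subgroup.inv_mem _ (hR h h1 h2)

lemma N_le_Good : N ≤ Good := by
  rw [N, Subgroup.commutator_le]
  intro f hf g hg
  obtain ⟨R, f1, f2⟩ := Fc_bound hf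
  obtain ⟨S, g1, g2⟩ := Fc_bound hg
  refine ⟨max R S, fun h h1 h2 => ?_⟩
  have e : h * ⁅f, g⁆ * h⁻¹ = ⁅h * f * h⁻¹, h * g * h⁻¹⁆ := by
    simp only [commutatorElement_def]; group
  rw [e]
  refine Subgroup.commutator_mem_commutator (conj_mem_F01 (R := max R S) ?_ ?_ h1 h2)
    (conj_mem_F01 (R := max R S) ?_ ?_ h1 h2)
  · exact fun y hy => f1 y (by linarith [le_max_left R S])
  · exact fun y hy => f2 y (by linarith [le_max_left R S])
  · exact fun y hy => g1 y (by linarith [le_max_right R S])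
  · exact fun y hy => g2 y (by linarith [le_max_right R S])

theorem F01_perfect : F01 ≤ ⁅F01, F01⁆ := by
  rintro f ⟨η, hη, f1, f2⟩
  have hFc : f ∈ Fc := ⟨eventually_atTop.2 ⟨_, f2⟩, eventually_atBot.2 ⟨_, f1⟩⟩
  obtain ⟨R, hR⟩ := N_le_Good (Fc_le_N hFc)
  obtain ⟨e, he, e1, e2⟩ := exists_A_btwn (lt_min hη (show (0 : ℝ) < 1 / 2 by norm_num))
  have e3 : e < η := e2.trans_le (min_le_left _ _)
  have e4 : e < 1 / 2 := e2.trans_le (min_le_right _ _)
  obtain ⟨T, hT, hT1⟩ := exists_A_gt (max R 1)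
  have hT2 : R < T := (le_max_left _ _).trans_lt hT1
  have hT3 : 1 < T := (le_max_right _ _).trans_lt hT1
  obtain ⟨h₁, hh₁, a1, a2⟩ := exists_int_map (A.neg_mem hT) he (half_mul_mem he) he
    (by linarith) (by linarith)
  have h1e : 1 - e ∈ A := A.sub_mem A.one_mem he
  obtain ⟨h₂, hh₂, b1, b2⟩ := exists_int_map h1e hT h1e (A.sub_mem A.one_mem (half_mul_mem he))
    (by linarith) (by linarith)
  obtain ⟨k, hk, k1, k2⟩ := exists_glue hh₁ P.one_mem he a2
  obtain ⟨l, hl, l1, l2⟩ := exists_glue hk hh₂ h1e (by rw [k2 _ (by linarith), b1]; rfl)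
  have := hR ⟨l, hl⟩ (by
    have : l (-T) = e / 2 := by rw [l1 _ (by linarith), k1 _ (by linarith), a1]
    have h2 : l (-T) ≤ l (-R) := l.monotone (by linarith)
    show 0 < l (-R)
    linarith) (by
    have : l T = 1 - e / 2 := by rw [l2 _ (by linarith), b2]
    have h2 : l R ≤ l T := l.monotone (by linarith)
    show l R < 1
    linarith)
  have c : Commute (⟨l, hl⟩ : P) f := by
    apply P_commute_of_disjoint
    intro y
    rcases le_total y e with h | h
    · right; exact f1 y (by linarith)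
    · rcases le_total y (1 - e) with h' | h'
      · left
        show l y = y
        rw [l1 _ h', k2 _ h]; rfl
      · right; exact f2 y (by linarith)
  rwa [c.eq, mul_inv_cancel_right] at this

end Pool.Agent.Lib.MP_9d59aa_al
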