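import Pool.Agent.Lib.MP_9d59aa_al.Sums
import Pool.Agent.Lib.MP_9d59aa_al.Perfect

open Filter Topology Set

namespace Pool.Agent.Lib.MP_9d59aa_al

def XX : Set ℝ := {x | x ∈ A ∧ -1 < x ∧ x < 3}

structure Setup (H : Type) [Group H] : Type where
  q : H →* (ℝ ≃o ℝ)
  σ : H →* (ℝ ≃o ℝ)
  k : ℝ → ℝ
  lo : ℝ
  hi : ℝ
  hC1 : ∀ e, ContDiff ℝ 1 (σ e)
  hX : ∀ e, ∀ x ∈ XX, q e x ∈ XX
  hmono : StrictMonoOn k XX
  hb : ∀ x ∈ XX, lo ≤ k x ∧ k x ≤ hi
  heq : ∀ e, ∀ x ∈ XX, σ e (k x) = k (q e x)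
  hext : ∀ g ∈ P, ∀ a ∈ A, ∀ b ∈ A, a ≤ b → -1 < a → -1 < g a → b < 3 → g b < 3 →
    ∃ e, ∀ y, a ≤ y → y ≤ b → q e y = g y

lemma exists_XX_btwn {x y : ℝ} (hx : -1 ≤ x) (hy : y ≤ 3) (h : x < y) :
    ∃ a ∈ XX, x < a ∧ a < y := by
  obtain ⟨a, ha, h1, h2⟩ := exists_A_btwn h
  exact ⟨a, ⟨ha, by linarith, by linarith⟩, h1, h2⟩

namespace Setup

variable {H : Type} [Group H] (S : Setup H)

noncomputable def km (x : ℝ) : ℝ := sSup (S.k '' (XX ∩ Iio x))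
noncomputable def kp (x : ℝ) : ℝ := sInf (S.k '' (XX ∩ Ioi x))

lemma bddA (T : Set ℝ) : BddAbove (S.k '' (XX ∩ T)) :=
  ⟨S.hi, by rintro _ ⟨x, hx, rfl⟩; exact (S.hb x hx.1).2⟩

lemma bddB (T : Set ℝ) : BddBelow (S.k '' (XX ∩ T)) :=
  ⟨S.lo, by rintro _ ⟨x, hx, rfl⟩; exact (S.hb x hx.1).1⟩

lemma neL {x : ℝ} (h1 : -1 < x) : (S.k '' (XX ∩ Iio x)).Nonempty := by
  obtain ⟨a, ha, -, h⟩ := exists_XX_btwn le_rfl (min_le_right x 3) (lt_min h1 (by norm_num))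
  exact ⟨_, a, ⟨ha, h.trans_le (min_le_left _ _)⟩, rfl⟩

lemma neR {x : ℝ} (h1 : x < 3) : (S.k '' (XX ∩ Ioi x)).Nonempty := by
  obtain ⟨a, ha, h, -⟩ := exists_XX_btwn (le_max_right x (-1)) le_rfl (max_lt h1 (by norm_num))
  exact ⟨_, a, ⟨ha, (le_max_left _ _).trans_lt h⟩, rfl⟩

lemma k_le_km {a x : ℝ} (ha : a ∈ XX) (h : a < x) : S.k a ≤ S.km x :=
  le_csSup (S.bddA _) ⟨a, ⟨ha, h⟩, rfl⟩

lemma kp_le_k {a x : ℝ} (ha : a ∈ XX) (h : x < a) : S.kp x ≤ S.k a :=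
  csInf_le (S.bddB _) ⟨a, ⟨ha, h⟩, rfl⟩

lemma km_le_kp {x : ℝ} (h1 : -1 < x) (h2 : x < 3) : S.km x ≤ S.kp x := by
  refine csSup_le (S.neL h1) ?_
  rintro _ ⟨a, ha, rfl⟩
  refine le_csInf (S.neR h2) ?_
  rintro _ ⟨b, hb, rfl⟩
  exact (S.hmono ha.1 hb.1 (lt_trans ha.2 hb.2)).le

lemma kp_lt_km {x y : ℝ} (h1 : -1 < x) (h2 : y < 3) (h : x < y) : S.kp x < S.km y := by
  obtain ⟨a, ha, a1, a2⟩ := exists_XX_btwn h1.le h2.le h
  obtain ⟨b, hb, b1, b2⟩ := exists_XX_btwn ha.2.1.le h2.le a2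
  exact (S.kp_le_k ha a1).trans_lt ((S.hmono ha hb b1).trans_le (S.k_le_km hb b2))

lemma km_lt_km {x y : ℝ} (h1 : -1 < x) (h2 : y < 3) (h : x < y) : S.km x < S.km y :=
  (S.km_le_kp h1 (h.trans h2)).trans_lt (S.kp_lt_km h1 h2 h)

lemma km_mem {x : ℝ} (h1 : -1 < x) : S.km x ∈ Icc S.lo S.hi := by
  constructor
  · obtain ⟨_, a, ha, rfl⟩ := S.neL h1
    exact (S.hb a ha.1).1.trans (S.k_le_km ha.1 ha.2)
  · refine csSup_le (S.neL h1) ?_
    rintro _ ⟨a, ha, rfl⟩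
    exact (S.hb a ha.1).2

lemma image_eq (e : H) (T T' : Set ℝ) (hT : ∀ y, y ∈ T ↔ S.q e y ∈ T') :
    S.σ e '' (S.k '' (XX ∩ T)) = S.k '' (XX ∩ T') := by
  ext z
  constructor
  · rintro ⟨_, ⟨a, ha, rfl⟩, rfl⟩
    exact ⟨S.q e a, ⟨S.hX e a ha.1, (hT a).1 ha.2⟩, (S.heq e a ha.1).symm⟩
  · rintro ⟨b, hb, rfl⟩
    have e1 : S.q e (S.q e⁻¹ b) = b := by
      rw [map_inv, RelIso.apply_inv_self]
    refine ⟨_, ⟨S.q e⁻¹ b, ⟨S.hX _ b hb.1, (hT _).2 (by rw [e1]; exact hb.2)⟩, rfl⟩, ?_⟩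
    rw [S.heq e _ (S.hX _ b hb.1), e1]

lemma km_equiv (e : H) {x : ℝ} (h1 : -1 < x) : S.σ e (S.km x) = S.km (S.q e x) := by
  rw [km, (S.σ e).map_csSup' (S.neL h1) (S.bddA _), S.image_eq e (Iio x) (Iio (S.q e x))
    (fun y => (S.q e).lt_iff_lt.symm)]
  rfl

lemma kp_equiv (e : H) {x : ℝ} (h1 : x < 3) : S.σ e (S.kp x) = S.kp (S.q e x) := by
  rw [kp, (S.σ e).map_csInf' (S.neR h1) (S.bddB _), S.image_eq e (Ioi x) (Ioi (S.q e x))
    (fun y => (S.q e).lt_iff_lt.symm)]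
  rfl

lemma diff (e : H) : Differentiable ℝ (S.σ e) := (S.hC1 e).differentiable one_ne_zero

lemma deriv_mul (e e' : H) (z : ℝ) :
    deriv (S.σ (e * e')) z = deriv (S.σ e) (S.σ e' z) * deriv (S.σ e') z := by
  rw [map_mul, RelIso.coe_mul]
  exact deriv_comp z (S.diff e _) (S.diff e' _)

lemma deriv_one (z : ℝ) : deriv (S.σ 1) z = 1 := by
  rw [map_one, RelIso.coe_one]
  exact deriv_id z

lemma deriv_pos (e : H) (z : ℝ) : 0 < deriv (S.σ e) z := by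
  have h1 := S.deriv_mul e⁻¹ e z
  rw [inv_mul_cancel, S.deriv_one] at h1
  have h2 : 0 ≤ deriv (S.σ e) z := (S.σ e).monotone.deriv_nonneg
  rcases h2.eq_or_lt with h | h
  · rw [← h] at h1; simp at h1
  · exact h

noncomputable def L (e : H) (z : ℝ) : ℝ := Real.log (deriv (S.σ e) z)

lemma L_cont (e : H) : Continuous (S.L e) :=
  ((S.hC1 e).continuous_deriv le_rfl).log fun z => (S.deriv_pos e z).ne'

lemma L_mul (e e' : H) (z : ℝ) : S.L (e * e') z = S.L e (S.σ e' z) + S.L e' z := by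
  rw [L, S.deriv_mul, Real.log_mul (S.deriv_pos _ _).ne' (S.deriv_pos _ _).ne']
  rfl

lemma L_one (z : ℝ) : S.L 1 z = 0 := by rw [L, S.deriv_one, Real.log_one]

lemma L_germ_left {e e' : H} {x η : ℝ} (h1 : -1 < x) (h2 : x < 3) (hη : 0 < η)
    (H1 : ∀ y, x - η < y → y < x → S.q e y = S.q e' y) : S.L e (S.km x) = S.L e' (S.km x) := by
  have : deriv (S.σ e) (S.km x) = deriv (S.σ e') (S.km x) := by
    refine deriv_eq_of_accPt (S.diff e) (S.diff e') (S := S.k '' (XX ∩ Ioo (x - η) x)) ?_ ?_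
    · rw [accPt_iff_nhds]
      intro U hU
      obtain ⟨ε, hε, hU'⟩ := Metric.mem_nhds_iff.1 hU
      obtain ⟨_, ⟨a, ha, rfl⟩, h3⟩ := exists_lt_of_lt_csSup (S.neL h1)
        (show S.km x - ε < S.km x by linarith)
      obtain ⟨b, hb, b1, b2⟩ := exists_XX_btwn (ha.1.2.1.le.trans (le_max_left a (x - η))) h2.le
        (max_lt ha.2 (by linarith))
      obtain ⟨c, hc, c1, c2⟩ := exists_XX_btwn hb.2.1.le h2.le b2
      have p1 : S.k b < S.km x := (S.hmono hb hc c1).trans_le (S.k_le_km hc c2)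
      have p2 : S.k a < S.k b := S.hmono ha.1 hb ((le_max_left _ _).trans_lt b1)
      refine ⟨S.k b, ⟨hU' ?_, b, ⟨hb, (le_max_right _ _).trans_lt b1, b2⟩, rfl⟩, p1.ne⟩
      rw [Metric.mem_ball, Real.dist_eq, abs_lt]
      constructor <;> linarith
    · rintro _ ⟨a, ha, rfl⟩
      rw [S.heq e a ha.1, S.heq e' a ha.1, H1 a ha.2.1 ha.2.2]
  rw [L, L, this]

lemma L_germ_right {e e' : H} {x η : ℝ} (h1 : -1 < x) (h2 : x < 3) (hη : 0 < η)
    (H1 : ∀ y, x < y → y < x + η → S.q e y = S.q e' y) : S.L e (S.kp x) = S.L e' (S.kp x) := by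
  have : deriv (S.σ e) (S.kp x) = deriv (S.σ e') (S.kp x) := by
    refine deriv_eq_of_accPt (S.diff e) (S.diff e') (S := S.k '' (XX ∩ Ioo x (x + η))) ?_ ?_
    · rw [accPt_iff_nhds]
      intro U hU
      obtain ⟨ε, hε, hU'⟩ := Metric.mem_nhds_iff.1 hU
      obtain ⟨_, ⟨a, ha, rfl⟩, h3⟩ := exists_lt_of_csInf_lt (S.neR h2)
        (show S.kp x < S.kp x + ε by linarith)
      obtain ⟨b, hb, b1, b2⟩ := exists_XX_btwn h1.le ((min_le_left a (x + η)).trans ha.1.2.2.le)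
        (lt_min ha.2 (by linarith))
      obtain ⟨c, hc, c1, c2⟩ := exists_XX_btwn h1.le hb.2.2.le b1
      have p1 : S.kp x < S.k b := (S.kp_le_k hc c1).trans_lt (S.hmono hc hb c2)
      have p2 : S.k b < S.k a := S.hmono hb ha.1 (b2.trans_le (min_le_left _ _))
      refine ⟨S.k b, ⟨hU' ?_, b, ⟨hb, b1, b2.trans_le (min_le_right _ _)⟩, rfl⟩, p1.ne'⟩
      rw [Metric.mem_ball, Real.dist_eq, abs_lt]
      constructor <;> linarith
    · rintro _ ⟨a, ha, rfl⟩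
      rw [S.heq e a ha.1, S.heq e' a ha.1, H1 a ha.2.1 ha.2.2]
  rw [L, L, this]

lemma mvt (e : H) {a b : ℝ} (h : a < b) :
    ∃ ξ ∈ Ioo a b, S.L e ξ = Real.log (S.σ e b - S.σ e a) - Real.log (b - a) := by
  obtain ⟨ξ, hξ, H1⟩ := exists_deriv_eq_slope (S.σ e) h (S.σ e).continuous.continuousOn
    (S.diff e).differentiableOn
  refine ⟨ξ, hξ, ?_⟩
  rw [L, H1, Real.log_div (sub_pos.2 ((S.σ e).strictMono h)).ne' (sub_pos.2 h).ne']

lemma quarter_mem_A : (1 / 4 : ℝ) ∈ A := by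
  have := half_mul_mem half_mem_A
  convert this using 1
  norm_num

lemma exists_g : ∃ g : ℤ → H, ∀ i : ℤ, 0 ≤ i → i ≤ 2 →
    ∀ y : ℝ, i / 3 - 1 / 4 ≤ y → y ≤ (i + 1) / 3 → S.q (g i) y = 3 * y - i := by
  have : ∀ i : ℤ, ∃ e : H, 0 ≤ i → i ≤ 2 →
      ∀ y : ℝ, i / 3 - 1 / 4 ≤ y → y ≤ (i + 1) / 3 → S.q e y = 3 * y - i := by
    intro i
    by_cases hi : 0 ≤ i ∧ i ≤ 2
    · have h0 : (0 : ℝ) ≤ i := by exact_mod_cast hi.1
      have h2 : (i : ℝ) ≤ 2 := by exact_mod_cast hi.2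
      have hiA : (i : ℝ) ∈ A := intCast_mem A i
      obtain ⟨e, he⟩ := S.hext _ (affIso_mem three_mem_Lam (A.neg_mem hiA)) (i / 3 - 1 / 4)
        (A.sub_mem (third_mul_mem hiA) quarter_mem_A) ((i + 1) / 3)
        (third_mul_mem (A.add_mem hiA A.one_mem)) (by linarith) (by linarith)
        (by simp only [affIso_apply]; linarith) (by linarith)
        (by simp only [affIso_apply]; linarith)
      exact ⟨e, fun _ _ y h1 h2 => by rw [he y h1 h2, affIso_apply]; ring⟩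
    · exact ⟨1, fun h1 h2 => absurd ⟨h1, h2⟩ hi⟩
  choose g hg using this
  exact ⟨g, hg⟩

lemma exists_f : ∃ f : ℤ → H, ∀ i : ℤ, 0 ≤ i → i ≤ 1 →
    ∀ y : ℝ, i / 2 - 1 / 4 ≤ y → y ≤ (i + 1) / 2 → S.q (f i) y = 2 * y - i := by
  have : ∀ i : ℤ, ∃ e : H, 0 ≤ i → i ≤ 1 →
      ∀ y : ℝ, i / 2 - 1 / 4 ≤ y → y ≤ (i + 1) / 2 → S.q e y = 2 * y - i := by
    intro i
    by_cases hi : 0 ≤ i ∧ i ≤ 1
    · have h0 : (0 : ℝ) ≤ i := by exact_mod_cast hi.1
      have h2 : (i : ℝ) ≤ 1 := by exact_mod_cast hi.2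
      have hiA : (i : ℝ) ∈ A := intCast_mem A i
      obtain ⟨e, he⟩ := S.hext _ (affIso_mem two_mem_Lam (A.neg_mem hiA)) (i / 2 - 1 / 4)
        (A.sub_mem (half_mul_mem hiA) quarter_mem_A) ((i + 1) / 2)
        (half_mul_mem (A.add_mem hiA A.one_mem)) (by linarith) (by linarith)
        (by simp only [affIso_apply]; linarith) (by linarith)
        (by simp only [affIso_apply]; linarith)
      exact ⟨e, fun _ _ y h1 h2 => by rw [he y h1 h2, affIso_apply]; ring⟩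
    · exact ⟨1, fun h1 h2 => absurd ⟨h1, h2⟩ hi⟩
  choose g hg using this
  exact ⟨g, hg⟩

/-- the property of the family realising multiplication by 3 -/
def IsG (g : ℤ → H) : Prop := ∀ i : ℤ, 0 ≤ i → i ≤ 2 →
    ∀ y : ℝ, i / 3 - 1 / 4 ≤ y → y ≤ (i + 1) / 3 → S.q (g i) y = 3 * y - i

lemma IsG.apply {S : Setup H} {g : ℤ → H} (hg : S.IsG g) {x y : ℝ} (h0 : 0 < x) (h1 : x ≤ 1)
    (h2 : x - 1 / 4 ≤ y) (h3 : y ≤ x) : S.q (g (i3 x)) y = Tm x - 3 * (x - y) := by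
  have a := i3_lt x
  have b := i3_ge x
  rw [hg _ (i3_range h0 h1).1 (i3_range h0 h1).2 y (by linarith) (by linarith), Tm]
  ring

lemma w_nogap {g : ℤ → H} (hg : S.IsG g) (hgap : S.km 1 = S.kp 1) (n : ℕ) :
    Sm n (fun x => S.L (g (i3 x)) (S.km x)) = 0 := by
  obtain ⟨f, hf⟩ := S.exists_f
  have hf' : ∀ {x y : ℝ}, 0 < x → x ≤ 1 → x - 1 / 4 ≤ y → y ≤ x →
      S.q (f (i2 x)) y = Dm x - 2 * (x - y) := by
    intro x y h0 h1 h2 h3
    have a := i2_lt x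
    have b := i2_ge x
    rw [hf _ (i2_range h0 h1).1 (i2_range h0 h1).2 y (by linarith) (by linarith), Dm]
    ring
  refine cocycle_sum (u := fun x => S.L (f (i2 x)) (S.km x)) ?_ ?_ n
  · intro x _ h0 h1
    have e1 : S.σ (g (i3 x)) (S.km x) = S.km (Tm x) := by
      rw [S.km_equiv _ (by linarith), hg.apply h0 h1 (by linarith) le_rfl]; simp
    have e2 : S.σ (f (i2 x)) (S.km x) = S.km (Dm x) := by
      rw [S.km_equiv _ (by linarith), hf' h0 h1 (by linarith) le_rfl]; simp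
    rw [← e1, ← e2, ← S.L_mul, ← S.L_mul]
    refine S.L_germ_left (η := 1 / 12) (by linarith) (by linarith) (by norm_num) ?_
    intro y y1 y2
    simp only [map_mul, RelIso.mul_apply]
    rw [hg.apply h0 h1 (by linarith) y2.le, hf' h0 h1 (by linarith) y2.le,
      hf' (Tm_pos x) (Tm_le x) (by linarith) (by linarith),
      hg.apply (Dm_pos x) (Dm_le x) (by linarith) (by linarith), Dm_Tm]
    ring
  · obtain ⟨φ, hφ, φ1, φ2⟩ := exists_glue (affIso_mem three_mem_Lam (A.neg_mem two_mem_A))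
      P.one_mem A.one_mem (by simp; norm_num)
    obtain ⟨e, he⟩ := S.hext φ hφ (1 - 1 / 4) (A.sub_mem A.one_mem quarter_mem_A) 2 two_mem_A
      (by norm_num) (by norm_num) (by rw [φ1 _ (by norm_num)]; simp; norm_num) (by norm_num)
      (by rw [φ2 _ (by norm_num)]; simp; norm_num)
    rw [S.L_germ_left (e' := e) (η := 1 / 4) (by norm_num) (by norm_num) (by norm_num), hgap,
      S.L_germ_right (e' := 1) (η := 1) (by norm_num) (by norm_num) (by norm_num), S.L_one]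
    · intro y y1 y2
      rw [he y (by linarith) (by linarith), φ2 y y1.le, map_one]
    · intro y y1 y2
      rw [he y (by linarith) (by linarith), φ1 y y2.le,
        hg.apply one_pos le_rfl y1.le y2.le, Tm_one]
      simp; ring

lemma gap_all (hgap : S.km 1 < S.kp 1) {x : ℝ} (hx : x ∈ A) (h0 : 0 < x) (h1 : x ≤ 1) :
    S.km x < S.kp x := by
  obtain ⟨e, he⟩ := S.hext _ (affIso_mem one_mem_Lam (A.sub_mem A.one_mem hx)) x hx x hx le_rfl
    (by linarith) (by simp) (by linarith) (by simp)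
  have e1 : S.q e x = 1 := by rw [he x le_rfl le_rfl]; simp
  apply (S.σ e).lt_iff_lt.1
  rw [S.km_equiv _ (by linarith), S.kp_equiv _ (by linarith), e1]
  exact hgap

lemma exists_w {g : ℤ → H} (hg : S.IsG g) : ∃ w : ℝ → ℝ, (∀ n, Sm n w = 0) ∧
    ∀ x ∈ A, 0 < x → x ≤ 1 → ∃ η ∈ Icc (S.km x) (S.kp x), w x = S.L (g (i3 x)) η := by
  rcases (S.km_le_kp (x := 1) (by norm_num) (by norm_num)).eq_or_lt with hgap | hgap
  · exact ⟨_, S.w_nogap hg hgap, fun x _ h0 h1 =>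
      ⟨S.km x, ⟨le_rfl, S.km_le_kp (by linarith) (by linarith)⟩, rfl⟩⟩
  · refine ⟨fun x => Real.log (S.kp (Tm x) - S.km (Tm x)) - Real.log (S.kp x - S.km x),
      fun n => ?_, fun x hx h0 h1 => ?_⟩
    · rw [Sm_sub, Sm_Tm n (fun x => Real.log (S.kp x - S.km x)), sub_self]
    · obtain ⟨η, hη, H1⟩ := S.mvt (g (i3 x)) (S.gap_all hgap hx h0 h1)
      refine ⟨η, ⟨hη.1.le, hη.2.le⟩, ?_⟩
      rw [H1, S.km_equiv _ (by linarith), S.kp_equiv _ (by linarith),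
        hg.apply h0 h1 (by linarith) le_rfl]
      simp

include S in
theorem elim : False := by
  obtain ⟨g, hg⟩ := S.exists_g
  replace hg : S.IsG g := hg
  obtain ⟨w, hw0, hw⟩ := S.exists_w hg
  have hl2 : 0 < Real.log 2 := Real.log_pos (by norm_num)
  obtain ⟨C0, c0, hC0⟩ := unif_bound (S.L_cont (g 0)) S.lo S.hi (half_pos hl2)
  obtain ⟨C1, c1, hC1⟩ := unif_bound (S.L_cont (g 1)) S.lo S.hi (half_pos hl2)
  obtain ⟨C2, c2, hC2⟩ := unif_bound (S.L_cont (g 2)) S.lo S.hi (half_pos hl2)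
  have hC : ∀ i : ℤ, 0 ≤ i → i ≤ 2 → ∀ z ∈ Icc S.lo S.hi, ∀ z' ∈ Icc S.lo S.hi,
      |S.L (g i) z - S.L (g i) z'| ≤ Real.log 2 / 2 + (C0 + C1 + C2) * |z - z'| := by
    intro i h0 h2 z hz z' hz'
    have := abs_nonneg (z - z')
    have : i = 0 ∨ i = 1 ∨ i = 2 := by omega
    rcases this with rfl | rfl | rfl
    · have := hC0 z hz z' hz'; nlinarith
    · have := hC1 z hz z' hz'; nlinarith
    · have := hC2 z hz z' hz'; nlinarith
  set C := C0 + C1 + C2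
  have hCpos : 0 ≤ C := by positivity
  obtain ⟨τ, hτ⟩ := S.hext _ (affIso_mem one_mem_Lam A.one_mem) (-(1 / 2)) (A.neg_mem half_mem_A)
    0 A.zero_mem (by norm_num) (by norm_num) (by simp; norm_num) (by norm_num) (by simp)
  obtain ⟨M, hM⟩ := isCompact_Icc.exists_bound_of_continuousOn
    ((S.L_cont τ).continuousOn (s := Icc S.lo S.hi))
  obtain ⟨n, hn⟩ := pow_unbounded_of_one_lt
    (max 4 ((M + 4 * C * (S.hi - S.lo)) / Real.log 2)) (show (1 : ℝ) < 2 by norm_num)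
  have hn4 : (4 : ℝ) < 2 ^ n := (le_max_left _ _).trans_lt hn
  have hnM : M + 4 * C * (S.hi - S.lo) < 2 ^ n * Real.log 2 := by
    have := (le_max_right _ _).trans_lt hn
    rwa [div_lt_iff₀ hl2] at this
  set h : ℝ := 1 / 2 ^ n with hh
  have h0 : 0 < h := by positivity
  have h4 : h < 1 / 4 := by
    rw [hh]; exact one_div_lt_one_div_of_lt (by norm_num) hn4
  set ℓ : ℝ → ℝ := fun x => Real.log (S.km x - S.km (x - h)) with hℓ
  have key : ∀ x ∈ A, 0 < x → x ≤ 1 →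
      Real.log 2 / 2 + ((ℓ (Tm x) - ℓ x) - (1 / 2) * (ℓ (Tm x) - ℓ (Tm x - h))) -
        C * ((S.km (x + h) - S.km (x - h + h)) + (S.km x - S.km (x - h))) ≤ w x := by
    intro x hx x0 x1
    obtain ⟨η, hη, e1⟩ := hw x hx x0 x1
    have lt1 : S.km (x - h) < S.km x := S.km_lt_km (by linarith) (by linarith) (by linarith)
    have lt2 : S.kp x < S.km (x + h) := S.kp_lt_km (by linarith) (by linarith) (by linarith)
    obtain ⟨ξ, hξ, e2⟩ := S.mvt (g (i3 x)) lt1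
    rw [S.km_equiv _ (by linarith), S.km_equiv _ (by linarith),
      hg.apply x0 x1 (by linarith) le_rfl, hg.apply x0 x1 (by linarith) (by linarith)] at e2
    have t0 := Tm_pos x
    have t1 := Tm_le x
    rw [show Tm x - 3 * (x - x) = Tm x by ring,
      show Tm x - 3 * (x - (x - h)) = Tm x - 3 * h by ring] at e2
    have l1 : S.km (Tm x - h) < S.km (Tm x) :=
      S.km_lt_km (by linarith) (by linarith) (by linarith)
    have l2 : S.km (Tm x - h - h) < S.km (Tm x - h) :=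
      S.km_lt_km (by linarith) (by linarith) (by linarith)
    have l3 : S.km (Tm x - 3 * h) < S.km (Tm x - h - h) :=
      S.km_lt_km (by linarith) (by linarith) (by linarith)
    have a1 := log_add_ge (sub_pos.2 l1) (sub_pos.2 l2)
    have a2 : Real.log (S.km (Tm x) - S.km (Tm x - h) + (S.km (Tm x - h) - S.km (Tm x - h - h)))
        ≤ Real.log (S.km (Tm x) - S.km (Tm x - 3 * h)) :=
      Real.log_le_log (by linarith) (by linarith)
    have m1 := S.km_mem (x := x - h) (by linarith)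
    have m2 := S.km_mem (x := x + h) (by linarith)
    have b1 := hC _ (i3_range x0 x1).1 (i3_range x0 x1).2 ξ
      ⟨by linarith [m1.1, hξ.1], by linarith [m2.2, hξ.2, hη.1, hη.2]⟩ η
      ⟨by linarith [m1.1, hη.1], by linarith [m2.2, hη.2]⟩
    have b2 : |ξ - η| ≤ S.km (x + h) - S.km (x - h) := by
      rw [abs_le]
      constructor <;> linarith [hξ.1, hξ.2, hη.1, hη.2]
    have b3 := (abs_le.1 b1).2
    have b4 : C * |ξ - η| ≤ C * (S.km (x + h) - S.km (x - h)) := by gcongr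
    rw [sub_add_cancel]
    simp only [hℓ]
    have b5 : C * (S.km (x + h) - S.km x + (S.km x - S.km (x - h))) =
        C * (S.km (x + h) - S.km (x - h)) := by ring
    rw [b5]
    linarith
  have hsum := Sm_le (n := n) key
  rw [hw0, Sm_sub, Sm_add, Sm_sub, Sm_sub, Sm_mul, Sm_mul, Sm_add, Sm_const, Sm_Tm n ℓ,
    Sm_Tm n (fun x => ℓ x - ℓ (x - h)), Sm_telescope n ℓ,
    Sm_telescope n (fun x => S.km (x + h)), Sm_telescope n S.km] at hsum
  have lt0 : S.km (0 - h) < S.km 0 := S.km_lt_km (by linarith) (by linarith) (by linarith)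
  obtain ⟨ζ, hζ, e3⟩ := S.mvt τ lt0
  rw [S.km_equiv _ (by linarith), S.km_equiv _ (by linarith), hτ _ (by linarith) le_rfl,
    hτ _ (by linarith) (by linarith)] at e3
  simp only [affIso_apply] at e3
  rw [show (1 : ℝ) * 0 + 1 = 1 by ring, show 1 * (0 - h) + 1 = 1 - h by ring] at e3
  have m1 := S.km_mem (x := 0 - h) (by linarith)
  have m2 := S.km_mem (x := 0) (by linarith)
  have m3 := S.km_mem (x := 1) (by linarith)
  have m4 := S.km_mem (x := 1 + h) (by linarith)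
  have m5 := S.km_mem (x := 0 + h) (by linarith)
  have b1 := hM ζ ⟨by linarith [m1.1, hζ.1], by linarith [m2.2, hζ.2]⟩
  rw [Real.norm_eq_abs] at b1
  have b2 := (abs_le.1 b1).2
  have b3 : ℓ 1 - ℓ 0 ≤ M := by
    simp only [hℓ]; linarith
  have b4 : C * (S.km (1 + h) - S.km (0 + h) + (S.km 1 - S.km 0)) ≤ C * (2 * (S.hi - S.lo)) := by
    gcongr
    linarith [m2.1, m3.2, m4.2, m5.1]
  nlinarith

end Setup

end Pool.Agent.Lib.MP_9d59aa_al
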