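import Pool.Agent.Lib.MP_9d59aa_al.Defs

open Filter Topology Set

namespace Pool.Agent.Lib.MP_9d59aa_al

def A : Subring ℝ where
  carrier := A6
  zero_mem' := ⟨0, 0, by simp⟩
  one_mem' := ⟨1, 0, by simp⟩
  add_mem' := by
    rintro a b ⟨m, n, rfl⟩ ⟨m', n', rfl⟩
    refine ⟨m * 6 ^ n' + m' * 6 ^ n, n + n', ?_⟩
    push_cast
    field_simp
    ring
  mul_mem' := by
    rintro a b ⟨m, n, rfl⟩ ⟨m', n', rfl⟩
    refine ⟨m * m', n + n', ?_⟩
    push_cast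
    field_simp
    ring
  neg_mem' := by
    rintro a ⟨m, n, rfl⟩
    refine ⟨-m, n, ?_⟩
    push_cast
    ring

lemma mem_A {x : ℝ} : x ∈ A ↔ x ∈ A6 := Iff.rfl

lemma half_mem_A : (1 / 2 : ℝ) ∈ A := ⟨3, 1, by norm_num⟩
lemma third_mem_A : (1 / 3 : ℝ) ∈ A := ⟨2, 1, by norm_num⟩
lemma two_mem_A : (2 : ℝ) ∈ A := ⟨2, 0, by norm_num⟩
lemma three_mem_A : (3 : ℝ) ∈ A := ⟨3, 0, by norm_num⟩

lemma half_mul_mem {x : ℝ} (hx : x ∈ A) : x / 2 ∈ A := by
  have := A.mul_mem hx half_mem_A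
  convert this using 1
  ring

lemma third_mul_mem {x : ℝ} (hx : x ∈ A) : x / 3 ∈ A := by
  have := A.mul_mem hx third_mem_A
  convert this using 1
  ring

lemma exists_A_btwn {x y : ℝ} (h : x < y) : ∃ a ∈ A, x < a ∧ a < y := by
  obtain ⟨n, hn⟩ := exists_pow_lt_of_lt_one (sub_pos.2 h) (show (1 / 6 : ℝ) < 1 by norm_num)
  have h6 : (0 : ℝ) < 6 ^ n := by positivity
  refine ⟨((⌊x * 6 ^ n⌋ + 1 : ℤ) : ℝ) / 6 ^ n, ⟨_, n, rfl⟩, ?_, ?_⟩
  · rw [lt_div_iff₀ h6]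
    push_cast
    exact Int.lt_floor_add_one _
  · rw [div_lt_iff₀ h6]
    push_cast
    have h1 := Int.floor_le (x * 6 ^ n)
    have h2 : 1 < (y - x) * 6 ^ n := by
      rw [one_div, inv_pow] at hn
      calc (1 : ℝ) = (6 ^ n)⁻¹ * 6 ^ n := by field_simp
        _ < (y - x) * 6 ^ n := by gcongr
    nlinarith

lemma exists_A_lt (x : ℝ) : ∃ a ∈ A, a < x := by
  obtain ⟨a, ha, -, h⟩ := exists_A_btwn (show x - 1 < x by linarith)
  exact ⟨a, ha, h⟩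

lemma exists_A_gt (x : ℝ) : ∃ a ∈ A, x < a := by
  obtain ⟨a, ha, h, -⟩ := exists_A_btwn (show x < x + 1 by linarith)
  exact ⟨a, ha, h⟩

lemma Lam_pos {s : ℝ} (h : s ∈ Lam) : 0 < s := by
  obtain ⟨a, b, rfl⟩ := h
  positivity

lemma one_mem_Lam : (1 : ℝ) ∈ Lam := ⟨0, 0, by simp⟩
lemma two_mem_Lam : (2 : ℝ) ∈ Lam := ⟨1, 0, by simp⟩
lemma three_mem_Lam : (3 : ℝ) ∈ Lam := ⟨0, 1, by simp⟩

lemma Lam_mul {s t : ℝ} (hs : s ∈ Lam) (ht : t ∈ Lam) : s * t ∈ Lam := by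
  obtain ⟨a, b, rfl⟩ := hs
  obtain ⟨c, d, rfl⟩ := ht
  refine ⟨a + c, b + d, ?_⟩
  rw [zpow_add₀ (by norm_num), zpow_add₀ (by norm_num)]
  ring

lemma Lam_inv {s : ℝ} (hs : s ∈ Lam) : s⁻¹ ∈ Lam := by
  obtain ⟨a, b, rfl⟩ := hs
  refine ⟨-a, -b, ?_⟩
  rw [zpow_neg, zpow_neg, mul_inv]

lemma Lam_zpow {s : ℝ} (hs : s ∈ Lam) (n : ℤ) : s ^ n ∈ Lam := by
  obtain ⟨a, b, rfl⟩ := hs
  refine ⟨a * n, b * n, ?_⟩
  rw [mul_zpow, zpow_mul, zpow_mul]

lemma zpow_mem_A {x : ℝ} (hx : x ∈ A) (hx' : x⁻¹ ∈ A) (n : ℤ) : x ^ n ∈ A := by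
  rcases n with n | n
  · simpa using A.pow_mem hx n
  · rw [zpow_negSucc, ← inv_pow]
    exact A.pow_mem hx' _

lemma Lam_sub_A {s : ℝ} (hs : s ∈ Lam) : s ∈ A := by
  obtain ⟨a, b, rfl⟩ := hs
  exact A.mul_mem (zpow_mem_A two_mem_A (by simpa using half_mem_A) a)
    (zpow_mem_A three_mem_A (by simpa using third_mem_A) b)

lemma six_pow_mem_Lam (n : ℕ) : (6 : ℝ) ^ n ∈ Lam := by
  refine ⟨n, n, ?_⟩
  rw [zpow_natCast, zpow_natCast, ← mul_pow]
  norm_num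

/-- locally affine with slope in Lam -/
def LocAff (g : ℝ → ℝ) (x : ℝ) : Prop := ∃ s ∈ Lam, ∃ c : ℝ, ∀ᶠ y in 𝓝 x, g y = s * y + c

lemma LocAff.congr {g h : ℝ → ℝ} {x : ℝ} (H : LocAff g x) (e : ∀ᶠ y in 𝓝 x, h y = g y) :
    LocAff h x := by
  obtain ⟨s, hs, c, hc⟩ := H
  refine ⟨s, hs, c, ?_⟩
  filter_upwards [e, hc] with y h1 h2
  rw [h1, h2]

lemma LocAff.comp {g h : ℝ → ℝ} {x : ℝ} (hc : ContinuousAt h x) (Hg : LocAff g (h x))
    (Hh : LocAff h x) : LocAff (g ∘ h) x := by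
  obtain ⟨s, hs, c, H1⟩ := Hg
  obtain ⟨t, ht, d, H2⟩ := Hh
  refine ⟨s * t, Lam_mul hs ht, s * d + c, ?_⟩
  filter_upwards [hc.eventually H1, H2] with y h1 h2
  simp only [Function.comp]
  rw [h1, h2]
  ring

lemma LocAff.inv {g : ℝ ≃o ℝ} {x : ℝ} (H : LocAff g x) : LocAff (g⁻¹ : ℝ ≃o ℝ) (g x) := by
  obtain ⟨s, hs, c, H1⟩ := H
  have hs0 := (Lam_pos hs).ne'
  refine ⟨s⁻¹, Lam_inv hs, -(s⁻¹ * c), ?_⟩
  have hc : ContinuousAt (g⁻¹ : ℝ ≃o ℝ) (g x) := (g⁻¹ : ℝ ≃o ℝ).continuous.continuousAt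
  have : Tendsto (g⁻¹ : ℝ ≃o ℝ) (𝓝 (g x)) (𝓝 x) := by
    have := hc.tendsto
    rwa [RelIso.inv_apply_self] at this
  filter_upwards [this.eventually H1] with y hy
  rw [RelIso.apply_inv_self] at hy
  field_simp
  linarith

lemma locAff_id (x : ℝ) : LocAff (fun y => y) x :=
  ⟨1, one_mem_Lam, 0, by simp⟩

/-- locally affine on a preconnected set implies affine -/
lemma affine_on_of_locAff {g : ℝ → ℝ} {S : Set ℝ} (hS : IsPreconnected S)
    (H : ∀ x ∈ S, LocAff g x) {x₀ : ℝ} (hx₀ : x₀ ∈ S) {s c : ℝ}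
    (h0 : ∀ᶠ y in 𝓝 x₀, g y = s * y + c) : ∀ x ∈ S, ∀ᶠ y in 𝓝 x, g y = s * y + c := by
  have := hS.subset_of_closure_inter_subset
    (u := {x | ∀ᶠ y in 𝓝 x, g y = s * y + c}) isOpen_setOfPred_eventually_nhds ⟨x₀, hx₀, h0⟩ ?_
  · exact this
  rintro x ⟨hx, hxS⟩
  obtain ⟨t, -, d, H1⟩ := H x hxS
  have H2 := H1.eventually_nhds
  rw [mem_closure_iff_frequently] at hx
  obtain ⟨z, hz1, hz2⟩ := (hx.and_eventually H2).exists
  have hz1' : ∀ᶠ y in 𝓝 z, g y = s * y + c := hz1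
  have H3 : ∀ᶠ y in 𝓝 z, s * y + c = t * y + d := by
    filter_upwards [hz1', hz2] with y h1 h2
    rw [← h1, h2]
  have e1 : s * z + c = t * z + d := H3.self_of_nhds
  obtain ⟨w, hw1, hw2⟩ : ∃ w, (s * w + c = t * w + d) ∧ w ≠ z := by
    have : ∀ᶠ y in 𝓝[≠] z, (s * y + c = t * y + d) ∧ y ≠ z :=
      (H3.filter_mono nhdsWithin_le_nhds).and self_mem_nhdsWithin
    exact this.exists
  have hst : s = t := by
    have : (s - t) * (w - z) = 0 := by linarith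
    rcases mul_eq_zero.1 this with h | h
    · linarith
    · exact absurd (sub_eq_zero.1 h) hw2
  have hcd : c = d := by rw [hst] at e1; linarith
  show ∀ᶠ y in 𝓝 x, g y = s * y + c
  rw [hst, hcd]
  exact H1

/-- The group of PL homeomorphisms of the line with locally finitely many breakpoints. -/
def P : Subgroup (ℝ ≃o ℝ) where
  carrier := {g | (∀ x, g x ∈ A ↔ x ∈ A) ∧ ∃ D : Set ℝ, D ⊆ A ∧
    (∀ a b, (D ∩ Icc a b).Finite) ∧ ∀ x ∉ D, LocAff g x}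
  one_mem' := ⟨fun _ => Iff.rfl, ∅, by simp, by simp, fun x _ => locAff_id x⟩
  mul_mem' := by
    rintro g h ⟨hg1, D, hD, hDf, hg2⟩ ⟨hh1, E, hE, hEf, hh2⟩
    refine ⟨fun x => by rw [RelIso.mul_apply, hg1, hh1], E ∪ h ⁻¹' D, ?_, ?_, ?_⟩
    · rintro x (hx | hx)
      · exact hE hx
      · exact (hh1 x).1 (hD hx)
    · intro a b
      rw [union_inter_distrib_right]
      refine (hEf a b).union ?_
      refine ((hDf (h a) (h b)).preimage h.injective.injOn).subset ?_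
      rintro x ⟨hx1, hx2, hx3⟩
      exact ⟨hx1, h.monotone hx2, h.monotone hx3⟩
    · intro x hx
      simp only [mem_union, mem_preimage, not_or] at hx
      exact LocAff.comp (g := g) (h := h) h.continuous.continuousAt (hg2 _ hx.2) (hh2 _ hx.1)
  inv_mem' := by
    rintro g ⟨hg1, D, hD, hDf, hg2⟩
    refine ⟨fun x => by rw [← hg1, RelIso.apply_inv_self], (g⁻¹ : ℝ ≃o ℝ) ⁻¹' D, ?_, ?_, ?_⟩
    · intro x hx
      have := (hg1 _).2 (hD hx)
      rwa [RelIso.apply_inv_self] at this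
    · intro a b
      refine ((hDf ((g⁻¹ : ℝ ≃o ℝ) a) ((g⁻¹ : ℝ ≃o ℝ) b)).preimage
        (g⁻¹ : ℝ ≃o ℝ).injective.injOn).subset ?_
      rintro x ⟨hx1, hx2, hx3⟩
      exact ⟨hx1, (g⁻¹ : ℝ ≃o ℝ).monotone hx2, (g⁻¹ : ℝ ≃o ℝ).monotone hx3⟩
    · intro x hx
      have := (hg2 _ hx).inv
      rwa [RelIso.apply_inv_self] at this

lemma P_mem_A {g : ℝ ≃o ℝ} (hg : g ∈ P) {x : ℝ} : g x ∈ A ↔ x ∈ A := hg.1 x

/-- affine order isomorphism -/
noncomputable def affIso (s c : ℝ) (hs : 0 < s) : ℝ ≃o ℝ :=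
  StrictMono.orderIsoOfRightInverse (fun x => s * x + c)
    (fun x y h => by simp only; nlinarith) (fun y => (y - c) / s)
    (fun y => by field_simp; ring)

@[simp] lemma affIso_apply (s c : ℝ) (hs : 0 < s) (x : ℝ) : affIso s c hs x = s * x + c := rfl

lemma affIso_mem {s c : ℝ} (hs : s ∈ Lam) (hc : c ∈ A) : affIso s c (Lam_pos hs) ∈ P := by
  refine ⟨fun x => ?_, ∅, by simp, by simp, fun x _ => ⟨s, hs, c, by simp⟩⟩
  simp only [affIso_apply]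
  constructor
  · intro h
    have h1 : s * x ∈ A := by simpa using A.sub_mem h hc
    have h2 := A.mul_mem (Lam_sub_A (Lam_inv hs)) h1
    have hs0 := (Lam_pos hs).ne'
    rwa [← mul_assoc, inv_mul_cancel₀ hs0, one_mul] at h2
  · intro h
    exact A.add_mem (A.mul_mem (Lam_sub_A hs) h) hc

/-- glue two order isomorphisms at a point where they agree -/
noncomputable def glue (g h : ℝ ≃o ℝ) (x : ℝ) (e : g x = h x) : ℝ ≃o ℝ :=
  StrictMono.orderIsoOfSurjective (fun y => if y ≤ x then g y else h y)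
    (by
      intro a b hab
      simp only
      split_ifs with h1 h2 h2
      · exact g.strictMono hab
      · calc g a ≤ g x := g.monotone h1
          _ = h x := e
          _ < h b := h.strictMono (not_le.1 h2)
      · exact absurd (hab.le.trans h2) h1
      · exact h.strictMono hab)
    (by
      intro z
      by_cases hz : z ≤ g x
      · refine ⟨g.symm z, ?_⟩
        have : g.symm z ≤ x := by
          rw [OrderIso.symm_apply_le]; exact hz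
        simp [this]
      · refine ⟨h.symm z, ?_⟩
        have : ¬ h.symm z ≤ x := by
          rw [OrderIso.symm_apply_le, ← e]; exact hz
        simp [this])

lemma glue_le (g h : ℝ ≃o ℝ) (x : ℝ) (e : g x = h x) {y : ℝ} (hy : y ≤ x) :
    glue g h x e y = g y := by
  simp [glue, hy]

lemma glue_ge (g h : ℝ ≃o ℝ) (x : ℝ) (e : g x = h x) {y : ℝ} (hy : x ≤ y) :
    glue g h x e y = h y := by
  rcases hy.eq_or_lt with rfl | hy
  · simp [glue, e]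
  · simp [glue, not_le.2 hy]

lemma glue_mem {g h : ℝ ≃o ℝ} (hg : g ∈ P) (hh : h ∈ P) {x : ℝ} (hx : x ∈ A) (e : g x = h x) :
    glue g h x e ∈ P := by
  obtain ⟨hg1, D, hD, hDf, hg2⟩ := hg
  obtain ⟨hh1, E, hE, hEf, hh2⟩ := hh
  refine ⟨fun y => ?_, insert x (D ∪ E), ?_, ?_, ?_⟩
  · rcases le_total y x with hy | hy
    · rw [glue_le _ _ _ _ hy, hg1]
    · rw [glue_ge _ _ _ _ hy, hh1]
  · rintro y (rfl | hy | hy)
    exacts [hx, hD hy, hE hy]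
  · intro a b
    refine (((hDf a b).union (hEf a b)).insert x).subset ?_
    rintro y ⟨rfl | hy | hy, hy2⟩
    · left; rfl
    · right; left; exact ⟨hy, hy2⟩
    · right; right; exact ⟨hy, hy2⟩
  · intro y hy
    simp only [mem_insert_iff, mem_union, not_or] at hy
    rcases lt_or_gt_of_ne hy.1 with h1 | h1
    · refine (hg2 y hy.2.1).congr ?_
      filter_upwards [Iio_mem_nhds h1] with z hz
      exact glue_le _ _ _ _ (le_of_lt hz)
    · refine (hh2 y hy.2.2).congr ?_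
      filter_upwards [Ioi_mem_nhds h1] with z hz
      exact glue_ge _ _ _ _ (le_of_lt hz)

/-- existence form of gluing -/
lemma exists_glue {g h : ℝ ≃o ℝ} (hg : g ∈ P) (hh : h ∈ P) {x : ℝ} (hx : x ∈ A) (e : g x = h x) :
    ∃ k ∈ P, (∀ y, y ≤ x → k y = g y) ∧ (∀ y, x ≤ y → k y = h y) :=
  ⟨glue g h x e, glue_mem hg hh hx e, fun _ hy => glue_le _ _ _ _ hy,
    fun _ hy => glue_ge _ _ _ _ hy⟩

lemma exists_nat_step (q : ℕ) : ∃ h ∈ P, h 0 = 0 ∧ h 1 = q + 1 := by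
  induction q with
  | zero => exact ⟨1, P.one_mem, rfl, by simp⟩
  | succ q ih =>
    obtain ⟨h, hh, h0, h1⟩ := ih
    have hq : (q : ℝ) ∈ A := natCast_mem A q
    obtain ⟨k, hk, k1, k2⟩ := exists_glue P.one_mem (affIso_mem two_mem_Lam (A.neg_mem hq)) hq
      (by simp; ring)
    refine ⟨k * h, P.mul_mem hk hh, ?_, ?_⟩
    · rw [RelIso.mul_apply, h0, k1 _ (Nat.cast_nonneg q)]; rfl
    · rw [RelIso.mul_apply, h1, k2 _ (by linarith)]
      simp; ring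

lemma exists_unit_map {a b : ℝ} (ha : a ∈ A) (hb : b ∈ A) (hab : a < b) :
    ∃ h ∈ P, h 0 = a ∧ h 1 = b := by
  obtain ⟨m, n, hmn⟩ := A.sub_mem hb ha
  have h6 : (0 : ℝ) < 6 ^ n := by positivity
  have hm : 0 < m := by
    have : (0 : ℝ) < m / 6 ^ n := by rw [← hmn]; linarith
    have : (0 : ℝ) < m := by
      by_contra hcon
      push Not at hcon
      have := div_nonpos_of_nonpos_of_nonneg hcon h6.le
      linarith
    exact_mod_cast this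
  obtain ⟨q, hq⟩ : ∃ q : ℕ, m = q + 1 := ⟨(m - 1).toNat, by omega⟩
  obtain ⟨h, hh, h0, h1⟩ := exists_nat_step q
  refine ⟨affIso _ a (Lam_pos (Lam_inv (six_pow_mem_Lam n))) * h,
    P.mul_mem (affIso_mem (Lam_inv (six_pow_mem_Lam n)) ha) hh, ?_, ?_⟩
  · rw [RelIso.mul_apply, h0]; simp
  · rw [RelIso.mul_apply, h1]
    simp only [affIso_apply]
    have : (m : ℝ) = q + 1 := by exact_mod_cast hq
    rw [← this]
    have : b = m / 6 ^ n + a := by linarith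
    rw [this]
    field_simp

/-- any two A-intervals are related by an element of P -/
lemma exists_int_map {a b c d : ℝ} (ha : a ∈ A) (hb : b ∈ A) (hc : c ∈ A) (hd : d ∈ A)
    (hab : a < b) (hcd : c < d) : ∃ h ∈ P, h a = c ∧ h b = d := by
  obtain ⟨h, hh, h0, h1⟩ := exists_unit_map ha hb hab
  obtain ⟨k, hk, k0, k1⟩ := exists_unit_map hc hd hcd
  refine ⟨k * h⁻¹, P.mul_mem hk (P.inv_mem hh), ?_, ?_⟩
  · rw [RelIso.mul_apply, ← h0, RelIso.inv_apply_self, k0]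
  · rw [RelIso.mul_apply, ← h1, RelIso.inv_apply_self, k1]

/-- cut off on the left -/
lemma exists_cutL {g : ℝ ≃o ℝ} (hg : g ∈ P) {lo x : ℝ} (hlo : lo ∈ A) (hx : x ∈ A)
    (h1 : lo < x) (h2 : lo < g x) :
    ∃ k ∈ P, (∀ y, y ≤ lo → k y = y) ∧ (∀ y, x ≤ y → k y = g y) := by
  obtain ⟨h, hh, e1, e2⟩ := exists_int_map hlo hx hlo ((P_mem_A hg).2 hx) h1 h2
  obtain ⟨k, hk, k1, k2⟩ := exists_glue hh hg hx e2
  obtain ⟨l, hl, l1, l2⟩ := exists_glue P.one_mem hk hlo (by rw [k1 _ h1.le, e1]; rfl)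
  exact ⟨l, hl, l1, fun y hy => by rw [l2 _ (h1.le.trans hy), k2 _ hy]⟩

/-- cut off on the right -/
lemma exists_cutR {g : ℝ ≃o ℝ} (hg : g ∈ P) {x hi : ℝ} (hx : x ∈ A) (hhi : hi ∈ A)
    (h1 : x < hi) (h2 : g x < hi) :
    ∃ k ∈ P, (∀ y, y ≤ x → k y = g y) ∧ (∀ y, hi ≤ y → k y = y) := by
  obtain ⟨h, hh, e1, e2⟩ := exists_int_map hx hhi ((P_mem_A hg).2 hx) hhi h1 h2
  obtain ⟨k, hk, k1, k2⟩ := exists_glue hg hh hx e1.symm
  obtain ⟨l, hl, l1, l2⟩ := exists_glue hk P.one_mem hhi (by rw [k2 _ h1.le, e2]; rfl)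
  exact ⟨l, hl, fun y hy => by rw [l1 _ (hy.trans h1.le), k1 _ hy], l2⟩

/-- cut off on both sides -/
lemma exists_cut {g : ℝ ≃o ℝ} (hg : g ∈ P) {lo a b hi : ℝ} (hlo : lo ∈ A) (ha : a ∈ A)
    (hb : b ∈ A) (hhi : hi ∈ A) (hab : a ≤ b) (h1 : lo < a) (h2 : lo < g a) (h3 : b < hi)
    (h4 : g b < hi) :
    ∃ k ∈ P, (∀ y, y ≤ lo → k y = y) ∧ (∀ y, a ≤ y → y ≤ b → k y = g y) ∧
      (∀ y, hi ≤ y → k y = y) := by
  obtain ⟨k, hk, k1, k2⟩ := exists_cutL hg hlo ha h1 h2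
  obtain ⟨l, hl, l1, l2⟩ := exists_cutR hk hb hhi h3 (by rw [k2 _ hab]; exact h4)
  refine ⟨l, hl, fun y hy => ?_, fun y hy hy' => ?_, l2⟩
  · rw [l1 _ (hy.trans (h1.le.trans hab)), k1 _ hy]
  · rw [l1 _ hy', k2 _ hy]

lemma commute_of_disjoint {g h : ℝ ≃o ℝ} (H : ∀ y, g y = y ∨ h y = y) : Commute g h := by
  ext y
  simp only [RelIso.mul_apply]
  have key : ∀ z, g z ≠ z → h (g z) = g z := by
    intro z hz
    rcases H (g z) with h1 | h1
    · exact absurd (g.injective h1) hz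
    · exact h1
  have key2 : ∀ z, h z ≠ z → g (h z) = h z := by
    intro z hz
    rcases H (h z) with h1 | h1
    · exact h1
    · exact absurd (h.injective h1) hz
  by_cases hg : g y = y
  · by_cases hh : h y = y
    · rw [hh, hg, hh]
    · rw [key2 y hh, hg]
  · have hh : h y = y := (H y).resolve_left hg
    rw [hh, key y hg]

end Pool.Agent.Lib.MP_9d59aa_al
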