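import Pool.Agent.Lib.MP_9d59aa_al.Rigidity

open Filter Topology Set
open scoped commutatorElement

namespace Pool.Agent.Lib.MP_9d59aa_al

abbrev Cir : Type := AddCircle (1 : ℝ)

lemma coe_eq_iff {x y : ℝ} : (x : Cir) = (y : Cir) ↔ ∃ n : ℤ, x = y + n := by
  rw [← sub_eq_zero, ← AddCircle.coe_sub, AddCircle.coe_eq_zero_iff]
  refine exists_congr fun n => ?_
  rw [zsmul_eq_mul, mul_one]
  constructor <;> intro h <;> linarith

lemma coe_add_int (x : ℝ) (n : ℤ) : ((x + n : ℝ) : Cir) = (x : Cir) := coe_eq_iff.2 ⟨n, rfl⟩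

lemma coe_surj (c : Cir) : ∃ x : ℝ, (x : Cir) = c := QuotientAddGroup.mk_surjective c

lemma cont_int_const {φ : ℝ → ℝ} (hφ : Continuous φ) (H : ∀ x, ∃ n : ℤ, φ x = n) :
    ∃ n : ℤ, ∀ x, φ x = n := by
  have key : ∀ a b, ¬ φ a < φ b := by
    intro a b hab
    obtain ⟨m, hm⟩ := H a
    obtain ⟨n, hn⟩ := H b
    have hmn : m < n := by rw [hm, hn] at hab; exact_mod_cast hab
    have hmn' : (m : ℝ) + 1 ≤ n := by exact_mod_cast hmn
    obtain ⟨c, hc⟩ := intermediate_value_univ a b hφ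
      (show (m : ℝ) + 1 / 2 ∈ Icc (φ a) (φ b) from ⟨by linarith, by linarith⟩)
    obtain ⟨k, hk⟩ := H c
    have h1 : (m : ℝ) < k := by linarith
    have h2 : (k : ℝ) < m + 1 := by linarith
    have h1' : m < k := by exact_mod_cast h1
    have h2' : k < m + 1 := by exact_mod_cast h2
    omega
  obtain ⟨n, hn⟩ := H 0
  exact ⟨n, fun x => by rw [← hn]; exact le_antisymm (not_lt.1 (key 0 x)) (not_lt.1 (key x 0))⟩

lemma lifts_differ {F G : ℝ → ℝ} (hF : Continuous F) (hG : Continuous G)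
    (H : ∀ x, (F x : Cir) = (G x : Cir)) : ∃ n : ℤ, ∀ x, F x = G x + n := by
  obtain ⟨n, hn⟩ := cont_int_const (hF.sub hG) (fun x => by
    obtain ⟨n, hn⟩ := coe_eq_iff.1 (H x)
    exact ⟨n, by simp only [Pi.sub_apply]; linarith⟩)
  exact ⟨n, fun x => by have := hn x; simp only [Pi.sub_apply] at this; linarith⟩

lemma lift_degree {f : Cir → Cir} {F : ℝ → ℝ} (hF : Continuous F)
    (H : ∀ x : ℝ, f x = (F x : Cir)) : ∃ d : ℤ, ∀ x, F (x + 1) = F x + d :=
  lifts_differ (hF.comp (continuous_id.add continuous_const)) hF (fun x => by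
    show (F (x + 1) : Cir) = _
    rw [← H, ← H, AddCircle.coe_add_period])

lemma lift_mono_degree {F : ℝ → ℝ} (hF : Continuous F) (hm : StrictMono F)
    (hinj : ∀ x y : ℝ, (F x : Cir) = (F y : Cir) → (x : Cir) = (y : Cir)) {d : ℤ}
    (hd : ∀ x, F (x + 1) = F x + d) : ∀ x, F (x + 1) = F x + 1 := by
  have h1 := hd 0
  rw [zero_add] at h1
  have h2 : F 0 < F 1 := hm one_pos
  have h3 : (0 : ℝ) < d := by linarith
  have h4 : 0 < d := by exact_mod_cast h3
  have h5 : (1 : ℝ) ≤ d := by exact_mod_cast h4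
  obtain ⟨y, hy, e⟩ := intermediate_value_Icc zero_le_one hF.continuousOn
    (show F 0 + 1 ∈ Icc (F 0) (F 1) from ⟨by linarith, by linarith⟩)
  obtain ⟨k, hk⟩ := coe_eq_iff.1 (hinj y 0 (by rw [e]; exact coe_eq_iff.2 ⟨1, by simp⟩))
  rw [zero_add] at hk
  have k0 : (0 : ℝ) ≤ k := by rw [← hk]; exact hy.1
  have k1 : (k : ℝ) ≤ 1 := by rw [← hk]; exact hy.2
  have k0' : 0 ≤ k := by exact_mod_cast k0
  have k1' : k ≤ 1 := by exact_mod_cast k1
  have : k = 0 ∨ k = 1 := by omega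
  rcases this with rfl | rfl
  · rw [hk] at e; simp at e
  · rw [hk] at e
    simp only [Int.cast_one] at e
    intro x
    rw [hd]; linarith

lemma surj_of_periodic {F : ℝ → ℝ} (hF : Continuous F) (hd : ∀ x, F (x + 1) = F x + 1) :
    Function.Surjective F := by
  intro z
  have h1 := add_int_of_add_one hd 0 ⌊z - F 0⌋
  have h2 := hd (0 + ⌊z - F 0⌋)
  have h3 := Int.floor_le (z - F 0)
  have h4 := Int.lt_floor_add_one (z - F 0)
  exact intermediate_value_univ (0 + (⌊z - F 0⌋ : ℝ)) (0 + ⌊z - F 0⌋ + 1) hF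
    ⟨by linarith, by linarith⟩

lemma lift_injective {F : ℝ → ℝ} (hF : Continuous F)
    (hinj : ∀ x y : ℝ, (F x : Cir) = (F y : Cir) → (x : Cir) = (y : Cir)) {d : ℤ}
    (hd : ∀ x, F (x + 1) = F x + d) : Function.Injective F := by
  have hI : ∀ a : ℝ, InjOn F (Icc a (a + 2 / 3)) := by
    intro a x hx y hy e
    obtain ⟨k, hk⟩ := coe_eq_iff.1 (hinj x y (by rw [e]))
    have k0 : (-1 : ℝ) < k := by linarith [hx.1, hx.2, hy.1, hy.2]
    have k1 : (k : ℝ) < 1 := by linarith [hx.1, hx.2, hy.1, hy.2]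
    have k0' : -1 < k := by exact_mod_cast k0
    have k1' : k < 1 := by exact_mod_cast k1
    have : k = 0 := by omega
    rw [this] at hk; simpa using hk
  have hd0 : d ≠ 0 := by
    rintro rfl
    have h1 := hd 0
    simp only [zero_add, Int.cast_zero, add_zero] at h1
    have a := hF.continuousOn.strictMonoOn_of_injOn_Icc' (by norm_num) (hI 0)
    have b := hF.continuousOn.strictMonoOn_of_injOn_Icc' (by norm_num) (hI (1 / 3))
    have m0 : (0 : ℝ) ∈ Icc (0 : ℝ) (0 + 2 / 3) := by norm_num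
    have m1 : (1 / 3 : ℝ) ∈ Icc (0 : ℝ) (0 + 2 / 3) := by norm_num
    have m2 : (2 / 3 : ℝ) ∈ Icc (0 : ℝ) (0 + 2 / 3) := by norm_num
    have n1 : (1 / 3 : ℝ) ∈ Icc (1 / 3 : ℝ) (1 / 3 + 2 / 3) := by norm_num
    have n2 : (2 / 3 : ℝ) ∈ Icc (1 / 3 : ℝ) (1 / 3 + 2 / 3) := by norm_num
    have n3 : (1 : ℝ) ∈ Icc (1 / 3 : ℝ) (1 / 3 + 2 / 3) := by norm_num
    rcases a with a | a <;> rcases b with b | b
    · linarith [a m0 m1 (by norm_num), b n1 n3 (by norm_num)]
    · linarith [a m1 m2 (by norm_num), b n1 n2 (by norm_num)]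
    · linarith [a m1 m2 (by norm_num), b n1 n2 (by norm_num)]
    · linarith [a m0 m1 (by norm_num), b n1 n3 (by norm_num)]
  intro x y e
  obtain ⟨k, hk⟩ := coe_eq_iff.1 (hinj x y (by rw [e]))
  have := add_int_of_add_one hd y k
  rw [← hk, e] at this
  have h2 : (k : ℝ) * d = 0 := by linarith
  rcases mul_eq_zero.1 h2 with h | h
  · rw [hk, h, add_zero]
  · exact absurd (by exact_mod_cast h) hd0

lemma lift_type {f : Cir → Cir} (hf : Function.Injective f) {F : ℝ → ℝ} (hF : Continuous F)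
    (H : ∀ x : ℝ, f x = (F x : Cir)) :
    ∃ Φ : ℝ ≃o ℝ, (∀ x, Φ (x + 1) = Φ x + 1) ∧ ((∀ x, F x = Φ x) ∨ (∀ x, F x = -Φ x)) := by
  have hinj : ∀ x y : ℝ, (F x : Cir) = (F y : Cir) → (x : Cir) = (y : Cir) :=
    fun x y e => hf (by rw [H, H, e])
  obtain ⟨d, hd⟩ := lift_degree hF H
  rcases hF.strictMono_of_inj (lift_injective hF hinj hd) with hm | hm
  · have h1 := lift_mono_degree hF hm hinj hd
    exact ⟨hm.orderIsoOfSurjective F (surj_of_periodic hF h1), h1, Or.inl fun _ => rfl⟩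
  · have hm' : StrictMono (fun x => -F x) := fun a b h => neg_lt_neg (hm h)
    have h1 := lift_mono_degree hF.neg hm' (fun x y e => hinj x y (by
      simp only [Pi.neg_apply, AddCircle.coe_neg, neg_inj] at e; exact e)) (d := -d)
      (fun x => by simp only [Pi.neg_apply]; rw [hd]; push_cast; ring)
    exact ⟨hm'.orderIsoOfSurjective _ (surj_of_periodic hF.neg h1), h1,
      Or.inr fun x => (neg_neg (F x)).symm⟩

/-- orientation type of a circle homeomorphism -/
def Typ (s : Bool) (f : Cir ≃ₜ Cir) : Prop :=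
  ∃ Φ : ℝ ≃o ℝ, ∀ x : ℝ, f x = ((if s then Φ x else -Φ x : ℝ) : Cir)

lemma Typ.mul {s t : Bool} {f g : Cir ≃ₜ Cir} (hf : Typ s f) (hg : Typ t g) :
    Typ (s == t) (f * g) := by
  obtain ⟨Φ, hΦ⟩ := hf
  obtain ⟨Ψ, hΨ⟩ := hg
  cases t
  · refine ⟨negIso Φ * Ψ, fun x => ?_⟩
    rw [Homeomorph.mul_apply, hΨ, hΦ]
    cases s <;> simp
  · refine ⟨Φ * Ψ, fun x => ?_⟩
    rw [Homeomorph.mul_apply, hΨ, hΦ]
    cases s <;> simp

lemma Typ.inv {s : Bool} {f : Cir ≃ₜ Cir} (hf : Typ s f) : Typ s f⁻¹ := by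
  obtain ⟨Φ, hΦ⟩ := hf
  cases s
  · refine ⟨negIso Φ.symm, fun x => ?_⟩
    rw [Homeomorph.inv_apply, Homeomorph.symm_apply_eq, hΦ]
    simp
  · refine ⟨Φ.symm, fun x => ?_⟩
    rw [Homeomorph.inv_apply, Homeomorph.symm_apply_eq, hΦ]
    simp

lemma exists_Typ {f : Cir ≃ₜ Cir} (h : IsC1 f) : ∃ s, Typ s f := by
  obtain ⟨F, hF, H⟩ := h
  obtain ⟨Φ, -, h | h⟩ := lift_type f.injective hF.continuous H
  · exact ⟨true, Φ, fun x => by rw [H, h]; simp⟩
  · exact ⟨false, Φ, fun x => by rw [H, h]; simp⟩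

theorem Gam_action_trivial (ρ : Gam →* (Cir ≃ₜ Cir)) (h1 : ρ (rot 1) = 1)
    (hρ : ∀ g, IsC1 (ρ g)) (g : Gam) : ρ g = 1 := by
  have one_typ : Typ true (1 : Cir ≃ₜ Cir) := ⟨1, fun x => by simp⟩
  let O : Subgroup Gam :=
    { carrier := {g | Typ true (ρ g)}
      one_mem' := by show Typ true (ρ 1); rw [map_one]; exact one_typ
      mul_mem' := by
        intro a b ha hb
        show Typ true (ρ (a * b))
        rw [map_mul]; exact Typ.mul ha hb
      inv_mem' := by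
        intro a ha
        show Typ true (ρ a⁻¹)
        rw [map_inv]; exact Typ.inv ha }
  have hO : ∀ g, g ∈ O := by
    refine top_of_commutators O (fun a b => ?_) ?_
    · obtain ⟨s, hs⟩ := exists_Typ (hρ a)
      obtain ⟨t, ht⟩ := exists_Typ (hρ b)
      show Typ true (ρ ⁅a, b⁆)
      rw [map_commutatorElement, commutatorElement_def]
      have := ((hs.mul ht).mul hs.inv).mul ht.inv
      cases s <;> cases t <;> exact this
    · show Typ true (ρ (rot 1))
      rw [h1]; exact one_typ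
  let E : Subgroup (Gam × (ℝ ≃o ℝ)) :=
    { carrier := {x | ∀ y : ℝ, ρ x.1 y = (x.2 y : Cir)}
      one_mem' := fun y => by simp
      mul_mem' := by
        intro a b ha hb y
        rw [Prod.fst_mul, Prod.snd_mul, map_mul, Homeomorph.mul_apply, hb, ha]
        rfl
      inv_mem' := by
        intro a ha y
        rw [Prod.fst_inv, Prod.snd_inv, map_inv, Homeomorph.inv_apply, Homeomorph.symm_apply_eq,
          ha, RelIso.apply_inv_self] }
  have hker : ∀ e : E, ρ e.1.1 = 1 → ∃ j : ℤ, ∀ y, e.1.2 y = y + j := by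
    intro e he
    exact lifts_differ e.1.2.continuous continuous_id (fun x => by rw [← e.2 x, he]; rfl)
  let S : Ext E :=
    { p := (MonoidHom.fst _ _).comp E.subtype
      σ := (MonoidHom.snd _ _).comp E.subtype
      z := ⟨(1, affIso 1 1 one_pos), fun y => by
        simp only [map_one, affIso_apply, one_mul, AddCircle.coe_add_period]; rfl⟩
      hsurj := fun g => by
        obtain ⟨Φ, hΦ⟩ := hO g
        exact ⟨⟨(g, Φ), fun y => by simpa using hΦ y⟩, rfl⟩
      hper := fun e => by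
        obtain ⟨d, hd⟩ := lift_degree e.1.2.continuous e.2
        exact lift_mono_degree e.1.2.continuous e.1.2.strictMono
          (fun x y h => (ρ e.1.1).injective (by rw [e.2, e.2]; exact h)) hd
      hC1 := fun e => by
        obtain ⟨F, hF, H⟩ := hρ e.1.1
        obtain ⟨n, hn⟩ := lifts_differ e.1.2.continuous hF.continuous
          (fun x => by rw [← e.2 x, H])
        have : (e.1.2 : ℝ → ℝ) = fun x => F x + n := funext hn
        show ContDiff ℝ 1 (e.1.2 : ℝ → ℝ)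
        rw [this]
        exact hF.add contDiff_const
      hker := fun e he => hker e (by
        have : e.1.1 = 1 := he
        rw [this, map_one])
      hrot := fun e he => hker e (by
        have : e.1.1 = rot 1 := he
        rw [this, h1])
      pz := rfl
      σz := fun y => by
        show affIso 1 1 one_pos y = _
        simp }
  obtain ⟨e, he1, he2⟩ := S.main
  refine higman ρ ?_ g
  have e1 : e.1.1 = rot halfA := he1
  have e2 : e.1.2 = 1 := he2
  ext c
  obtain ⟨y, rfl⟩ := coe_surj c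
  rw [← e1, e.2 y, e2]
  rfl

noncomputable def circ (g : Gam) : Cir → Cir :=
  Function.Periodic.lift (f := fun x : ℝ => (ap g x : Cir)) (c := 1)
    (fun x => by simp only [ap_add_one, AddCircle.coe_add_period])

lemma circ_coe (g : Gam) (x : ℝ) : circ g x = (ap g x : Cir) := rfl

lemma circ_continuous (g : Gam) : Continuous (circ g) := by
  rw [(QuotientAddGroup.isQuotientMap_mk _).continuous_iff]
  exact (AddCircle.continuous_mk' 1).comp (ap g).continuous

noncomputable def projH (g : Gam) : Cir ≃ₜ Cir where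
  toFun := circ g
  invFun := circ g⁻¹
  left_inv c := by
    obtain ⟨y, rfl⟩ := coe_surj c
    rw [circ_coe, circ_coe, ap_inv_ap]
  right_inv c := by
    obtain ⟨y, rfl⟩ := coe_surj c
    rw [circ_coe, circ_coe, ap_ap_inv]
  continuous_toFun := circ_continuous g
  continuous_invFun := circ_continuous g⁻¹

noncomputable def proj : Gam →* (Cir ≃ₜ Cir) :=
  MonoidHom.mk' projH (fun a b => by
    ext c
    obtain ⟨y, rfl⟩ := coe_surj c
    rfl)

lemma proj_coe (g : Gam) (x : ℝ) : proj g x = (ap g x : Cir) := rfl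

lemma coe_mem_image {x : ℝ} : (x : Cir) ∈ (fun x : ℝ => (x : Cir)) '' A6 ↔ x ∈ A := by
  constructor
  · rintro ⟨a, ha, e⟩
    obtain ⟨n, hn⟩ := coe_eq_iff.1 e.symm
    rw [hn]
    exact (add_int_mem_A n).2 ha
  · intro h
    exact ⟨x, h, rfl⟩

lemma isT23_proj (g : Gam) : IsT23 (proj g) := by
  obtain ⟨-, D, hD, hDf, hloc⟩ := ap_mem_P g
  refine ⟨⟨ap g, (ap g).continuous, proj_coe g, (hDf 0 1).toFinset, ?_, ?_⟩, ?_⟩
  · intro x hx
    rw [Finite.coe_toFinset] at hx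
    exact hD hx.1
  · intro x hx
    have h1 := hx (-⌊x⌋)
    rw [Finite.mem_toFinset, Int.cast_neg, ← sub_eq_add_neg] at h1
    have h2 : Int.fract x ∉ D := fun h =>
      h1 ⟨h, Int.fract_nonneg x, (Int.fract_lt_one x).le⟩
    obtain ⟨s, hs, c, hc⟩ := hloc _ h2
    refine ⟨s, hs, c - s * ⌊x⌋ + ⌊x⌋, ?_⟩
    have ht : Tendsto (fun z : ℝ => z - ⌊x⌋) (𝓝 x) (𝓝 (Int.fract x)) :=
      (continuous_sub_right _).tendsto x
    filter_upwards [ht.eventually hc] with z hz
    have := ap_add_int g (z - ⌊x⌋) ⌊x⌋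
    rw [sub_add_cancel, hz] at this
    rw [this]; ring
  · ext c
    obtain ⟨y, rfl⟩ := coe_surj c
    constructor
    · rintro ⟨_, ⟨a, ha, rfl⟩, e⟩
      rw [← e]
      exact ⟨ap g a, (ap_mem_A g).2 ha, rfl⟩
    · intro h
      have hy := coe_mem_image.1 h
      refine ⟨_, ⟨ap g⁻¹ y, (ap_mem_A g⁻¹).2 hy, rfl⟩, ?_⟩
      rw [proj_coe, ap_ap_inv]

lemma fifth_not_mem : (1 / 5 : ℝ) ∉ A := by
  rintro ⟨m, n, h⟩
  have h6 : (0 : ℝ) < 6 ^ n := by positivity
  rw [div_eq_div_iff (by norm_num) h6.ne', one_mul] at h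
  have h' : (6 : ℤ) ^ n = m * 5 := by exact_mod_cast h
  have h5 : (5 : ℤ) ∣ 6 ^ n := ⟨m, by rw [h']; ring⟩
  have := (Int.prime_iff_natAbs_prime.2 (by norm_num) : Prime (5 : ℤ)).dvd_of_dvd_pow h5
  norm_num at this

lemma exists_proj {f : Cir ≃ₜ Cir} (hf : IsT23 f) : ∃ g, proj g = f := by
  obtain ⟨⟨F, hF, H, B, hB, hloc⟩, himg⟩ := hf
  obtain ⟨Φ, hper, h | h⟩ := lift_type f.injective hF H
  · have hFΦ : F = Φ := funext h
    subst hFΦ
    have hP : Φ ∈ P := by
      refine ⟨fun x => ?_, {x | ∃ k : ℤ, x + k ∈ B}, ?_, ?_, ?_⟩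
      · rw [← coe_mem_image, ← coe_mem_image, ← H]
        conv_lhs => rw [← himg]
        exact f.injective.mem_set_image
      · rintro x ⟨k, hk⟩
        exact (add_int_mem_A k).1 (hB hk)
      · intro a b
        refine (finite_fract_mem (B.finite_toSet.image Int.fract) a b).subset ?_
        rintro x ⟨⟨k, hk⟩, hx⟩
        exact ⟨⟨_, hk, Int.fract_add_intCast x k⟩, hx⟩
      · intro x hx
        simp only [mem_ofPred_eq, not_exists] at hx
        exact hloc x hx
    refine ⟨⟨⟨Φ, hP⟩, hper⟩, ?_⟩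
    ext c
    obtain ⟨y, rfl⟩ := coe_surj c
    rw [H]; rfl
  · exfalso
    obtain ⟨s, hs, c, hc⟩ := hloc (1 / 5) (fun k hk =>
      fifth_not_mem ((add_int_mem_A k).1 (hB hk)))
    have e1 := hc.self_of_nhds
    have : ∀ᶠ y in 𝓝[>] (1 / 5 : ℝ), F y = s * y + c ∧ y ∈ Ioi (1 / 5 : ℝ) :=
      (hc.filter_mono nhdsWithin_le_nhds).and self_mem_nhdsWithin
    obtain ⟨y, y1, y2⟩ := this.exists
    have h1 := Φ.strictMono (show (1 / 5 : ℝ) < y from y2)
    have h2 := Lam_pos hs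
    rw [h] at e1 y1
    have h3 : s * (1 / 5) < s * y := mul_lt_mul_of_pos_left y2 h2
    linarith

theorem isT23_one : IsT23 1 := by
  have := isT23_proj 1
  rwa [map_one] at this

theorem isT23_mul {f g : Cir ≃ₜ Cir} (hf : IsT23 f) (hg : IsT23 g) : IsT23 (f * g) := by
  obtain ⟨a, rfl⟩ := exists_proj hf
  obtain ⟨b, rfl⟩ := exists_proj hg
  rw [← map_mul]; exact isT23_proj _

theorem isT23_inv {f : Cir ≃ₜ Cir} (hf : IsT23 f) : IsT23 f⁻¹ := by
  obtain ⟨a, rfl⟩ := exists_proj hf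
  rw [← map_inv]; exact isT23_proj _

theorem isC1_one : IsC1 (1 : Cir ≃ₜ Cir) := ⟨id, contDiff_id, fun _ => rfl⟩

theorem isC1_mul {f g : Cir ≃ₜ Cir} (hf : IsC1 f) (hg : IsC1 g) : IsC1 (f * g : Cir ≃ₜ Cir) := by
  obtain ⟨F, hF, H⟩ := hf
  obtain ⟨G, hG, H'⟩ := hg
  exact ⟨F ∘ G, hF.comp hG, fun x => by rw [Homeomorph.mul_apply, H', H]; rfl⟩

theorem T23_trivial (T : Subgroup (Cir ≃ₜ Cir)) (hT : ∀ f, f ∈ T ↔ IsT23 f)
    (ρ : T →* (Cir ≃ₜ Cir)) (hρ : ∀ g, IsC1 (ρ g)) (g : T) : ρ g = 1 := by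
  let π : Gam →* T := proj.codRestrict T (fun g => (hT _).2 (isT23_proj g))
  obtain ⟨a, ha⟩ := exists_proj ((hT _).1 g.2)
  have : π a = g := Subtype.ext ha
  rw [← this]
  refine Gam_action_trivial (ρ.comp π) ?_ (fun g => hρ _) a
  have : π (rot 1) = 1 := by
    apply Subtype.ext
    show proj (rot 1) = 1
    ext c
    obtain ⟨y, rfl⟩ := coe_surj c
    rw [proj_coe, rot_apply]
    exact AddCircle.coe_add_period 1 y
  rw [MonoidHom.comp_apply, this, map_one]

end Pool.Agent.Lib.MP_9d59aa_al
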