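import Mathlib

open Filter Topology

namespace Pool.Agent.Lib.MP_9d59aa_al

/-- The ring Z[1/6], as a set of reals. -/
def A6 : Set ℝ := {x | ∃ (m : ℤ) (n : ℕ), x = m / 6 ^ n}

/-- The slope group generated by 2 and 3. -/
def Lam : Set ℝ := {s | ∃ a b : ℤ, s = 2 ^ a * 3 ^ b}

/-- Piecewise linear homeomorphisms of R/Z with finitely many breakpoints, all in A/Z, slopes in
Lam, and mapping A/Z onto itself. -/
def IsT23 (f : AddCircle (1 : ℝ) ≃ₜ AddCircle (1 : ℝ)) : Prop :=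
  (∃ F : ℝ → ℝ, Continuous F ∧ (∀ x : ℝ, f (x : AddCircle (1 : ℝ)) = (F x : AddCircle (1 : ℝ))) ∧
    ∃ B : Finset ℝ, (B : Set ℝ) ⊆ A6 ∧
      ∀ x : ℝ, (∀ k : ℤ, x + k ∉ B) → ∃ s ∈ Lam, ∃ c : ℝ, ∀ᶠ y in 𝓝 x, F y = s * y + c) ∧
  f '' ((fun x : ℝ => (x : AddCircle (1 : ℝ))) '' A6) = (fun x : ℝ => (x : AddCircle (1 : ℝ))) '' A6

/-- A self-map of R/Z is C^1 when it has a C^1 lift to R. -/
def IsC1 (f : AddCircle (1 : ℝ) → AddCircle (1 : ℝ)) : Prop :=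
  ∃ F : ℝ → ℝ, ContDiff ℝ 1 F ∧ ∀ x : ℝ, f (x : AddCircle (1 : ℝ)) = (F x : AddCircle (1 : ℝ))

end Pool.Agent.Lib.MP_9d59aa_al
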