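import Pool.Agent.Lib.MP_9d59aa_al.Perfect

open Filter Topology Set
open scoped commutatorElement

namespace Pool.Agent.Lib.MP_9d59aa_al

/-- lifts to the line of elements of T(2,3) -/
def Gam : Subgroup P where
  carrier := {g | ∀ y, g.1 (y + 1) = g.1 y + 1}
  one_mem' := fun _ => rfl
  mul_mem' := by
    intro g h hg hh y
    rw [P_mul_apply, P_mul_apply, hh, hg]
  inv_mem' := by
    intro g hg y
    rw [P_inv_eq_iff, hg, P_apply_inv_self]

def ap : Gam →* (ℝ ≃o ℝ) := P.subtype.comp Gam.subtype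

lemma ap_def (g : Gam) (y : ℝ) : ap g y = g.1.1 y := rfl
@[simp] lemma ap_mul (g h : Gam) (y : ℝ) : ap (g * h) y = ap g (ap h y) := rfl
@[simp] lemma ap_one (y : ℝ) : ap 1 y = y := rfl
@[simp] lemma ap_inv_ap (g : Gam) (y : ℝ) : ap g⁻¹ (ap g y) = y := P_inv_apply_self g.1 y
@[simp] lemma ap_ap_inv (g : Gam) (y : ℝ) : ap g (ap g⁻¹ y) = y := P_apply_inv_self g.1 y
lemma ap_inv_eq_iff (g : Gam) (y z : ℝ) : ap g⁻¹ y = z ↔ ap g z = y := P_inv_eq_iff g.1 y z
lemma ap_mem_P (g : Gam) : ap g ∈ P := g.1.2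
lemma ap_mem_A (g : Gam) {y : ℝ} : ap g y ∈ A ↔ y ∈ A := P_mem_A g.1.2
lemma ap_add_one (g : Gam) (y : ℝ) : ap g (y + 1) = ap g y + 1 := g.2 y

lemma add_int_of_add_one {F : ℝ → ℝ} {d : ℝ} (H : ∀ y, F (y + 1) = F y + d) (y : ℝ) (k : ℤ) :
    F (y + k) = F y + k * d := by
  induction k using Int.induction_on with
  | zero => simp
  | succ k ih =>
    push_cast at ih ⊢
    rw [← add_assoc, H, ih]; ring
  | pred k ih =>
    push_cast at ih ⊢
    have := H (y + (-(k : ℝ) - 1))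
    rw [show y + (-(k : ℝ) - 1) + 1 = y + -(k : ℝ) by ring, ih] at this
    linarith

lemma ap_add_int (g : Gam) (y : ℝ) (k : ℤ) : ap g (y + k) = ap g y + k := by
  simpa using add_int_of_add_one (ap_add_one g) y k

lemma Gam_ext {g h : Gam} (H : ∀ y, ap g y = ap h y) : g = h := Subtype.ext (P_ext H)

lemma Gam_ext01 {g h : Gam} (H : ∀ y, 0 ≤ y → y < 1 → ap g y = ap h y) : g = h := by
  apply Gam_ext
  intro y
  rw [← Int.fract_add_floor y, ap_add_int, ap_add_int, H _ (Int.fract_nonneg y) (Int.fract_lt_one y)]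

noncomputable def perIso (f : ℝ ≃o ℝ) (h0 : f 0 = 0) (h1 : f 1 = 1) : ℝ ≃o ℝ :=
  StrictMono.orderIsoOfRightInverse (fun y => f (Int.fract y) + ⌊y⌋)
    (by
      intro a b hab
      simp only
      rcases (Int.floor_mono hab.le).eq_or_lt with h | h
      · have : Int.fract a < Int.fract b := by
          rw [Int.fract, Int.fract, h]; linarith
        have := f.strictMono this
        rw [h]; linarith
      · have e1 : f (Int.fract a) < 1 := by
          rw [← h1]; exact f.strictMono (Int.fract_lt_one a)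
        have e2 : 0 ≤ f (Int.fract b) := by
          rw [← h0]; exact f.monotone (Int.fract_nonneg b)
        have : (⌊a⌋ : ℝ) + 1 ≤ ⌊b⌋ := by exact_mod_cast h
        linarith)
    (fun y => f.symm (Int.fract y) + ⌊y⌋)
    (by
      intro y
      have e1 : f.symm (Int.fract y) < 1 := by
        rw [OrderIso.symm_apply_lt, h1]; exact Int.fract_lt_one y
      have e2 : 0 ≤ f.symm (Int.fract y) := by
        rw [OrderIso.le_symm_apply, h0]; exact Int.fract_nonneg y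
      simp only
      rw [Int.fract_add_intCast, Int.floor_add_intCast, Int.fract_eq_self.2 ⟨e2, e1⟩,
        Int.floor_eq_zero_iff.2 ⟨e2, e1⟩]
      simp)

lemma perIso_apply (f : ℝ ≃o ℝ) (h0 : f 0 = 0) (h1 : f 1 = 1) (y : ℝ) :
    perIso f h0 h1 y = f (Int.fract y) + ⌊y⌋ := rfl

lemma fract_mem_A {y : ℝ} : Int.fract y ∈ A ↔ y ∈ A := by
  constructor
  · intro h
    rw [← Int.fract_add_floor y]
    exact A.add_mem h (intCast_mem A _)
  · intro h
    exact A.sub_mem h (intCast_mem A _)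

lemma add_int_mem_A {y : ℝ} (k : ℤ) : y + k ∈ A ↔ y ∈ A := by
  constructor
  · intro h
    simpa using A.sub_mem h (intCast_mem A k)
  · intro h
    exact A.add_mem h (intCast_mem A _)

lemma finite_fract_mem {E : Set ℝ} (hE : E.Finite) (a b : ℝ) :
    ({y | Int.fract y ∈ E} ∩ Icc a b).Finite := by
  have : ((fun p : ℝ × ℤ => p.1 + p.2) '' (E ×ˢ (Icc ⌊a⌋ ⌊b⌋))).Finite :=
    (hE.prod (finite_Icc _ _)).image _
  refine this.subset ?_
  rintro y ⟨hy, h1, h2⟩
  exact ⟨(Int.fract y, ⌊y⌋), ⟨hy, Int.floor_mono h1, Int.floor_mono h2⟩, Int.fract_add_floor y⟩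

lemma perIso_mem {f : ℝ ≃o ℝ} (hf : f ∈ P) (h0 : f 0 = 0) (h1 : f 1 = 1) : perIso f h0 h1 ∈ P := by
  obtain ⟨hA, D, hD, hDf, hloc⟩ := hf
  refine ⟨fun y => ?_, {y | Int.fract y ∈ insert 0 (D ∩ Icc 0 1)}, ?_, ?_, ?_⟩
  · rw [perIso_apply, add_int_mem_A, hA, fract_mem_A]
  · rintro y (hy | hy)
    · exact fract_mem_A.1 (by rw [hy]; exact A.zero_mem)
    · exact fract_mem_A.1 (hD hy.1)
  · exact finite_fract_mem ((hDf 0 1).insert 0)
  · intro y hy
    simp only [mem_ofPred_eq, mem_insert_iff, not_or] at hy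
    have hyD : Int.fract y ∉ D := fun h =>
      hy.2 ⟨h, Int.fract_nonneg y, (Int.fract_lt_one y).le⟩
    obtain ⟨s, hs, c, hc⟩ := hloc _ hyD
    refine ⟨s, hs, c - s * ⌊y⌋ + ⌊y⌋, ?_⟩
    have hlt : (⌊y⌋ : ℝ) < y := by
      rcases (Int.floor_le y).eq_or_lt with h | h
      · exact absurd (by rw [Int.fract]; linarith) hy.1
      · exact h
    have ht : Tendsto (fun z : ℝ => z - ⌊y⌋) (𝓝 y) (𝓝 (Int.fract y)) :=
      (continuous_sub_right _).tendsto y
    filter_upwards [ht.eventually hc, Ioo_mem_nhds hlt (Int.lt_floor_add_one y)] with z hz1 hz2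
    have : ⌊z⌋ = ⌊y⌋ := Int.floor_eq_iff.2 ⟨hz2.1.le, hz2.2⟩
    rw [perIso_apply, Int.fract, this, hz1]
    ring

lemma F01_zero (f : F01) : f.1.1 0 = 0 := by
  obtain ⟨η, hη, h1, -⟩ := f.2
  exact h1 0 hη.le

lemma F01_one (f : F01) : f.1.1 1 = 1 := by
  obtain ⟨η, hη, -, h1⟩ := f.2
  exact h1 1 (by linarith)

noncomputable def perG (f : F01) : Gam :=
  ⟨⟨perIso f.1.1 (F01_zero f) (F01_one f), perIso_mem f.1.2 _ _⟩, fun y => by
    show perIso f.1.1 (F01_zero f) (F01_one f) (y + 1) = perIso f.1.1 (F01_zero f) (F01_one f) y + 1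
    rw [perIso_apply, perIso_apply, Int.fract_add_one, Int.floor_add_one]
    push_cast; ring⟩

lemma perG_apply (f : F01) {y : ℝ} (h0 : 0 ≤ y) (h1 : y < 1) : ap (perG f) y = f.1.1 y := by
  show perIso f.1.1 (F01_zero f) (F01_one f) y = _
  rw [perIso_apply, Int.fract_eq_self.2 ⟨h0, h1⟩, Int.floor_eq_zero_iff.2 ⟨h0, h1⟩]
  simp

noncomputable def per : F01 →* Gam :=
  MonoidHom.mk' perG (fun f g => by
    apply Gam_ext01
    intro y h0 h1
    rw [ap_mul, perG_apply _ h0 h1, perG_apply _ h0 h1, perG_apply]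
    · rfl
    · rw [← F01_zero g]; exact g.1.1.monotone h0
    · rw [← F01_one g]; exact g.1.1.strictMono h1)

def Gx (x : ℝ) : Subgroup Gam where
  carrier := {g | ∀ᶠ y in 𝓝 x, ap g y = y}
  one_mem' := by simp
  mul_mem' := by
    intro g h hg hh
    filter_upwards [hg, hh] with y h1 h2
    rw [ap_mul, h2, h1]
  inv_mem' := by
    intro g hg
    filter_upwards [hg] with y h1
    rw [ap_inv_eq_iff, h1]

lemma mem_Gx_iff {g : Gam} {x : ℝ} :
    g ∈ Gx x ↔ ∃ η : ℝ, 0 < η ∧ ∀ y, x - η ≤ y → y ≤ x + η → ap g y = y := by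
  constructor
  · intro h
    obtain ⟨ε, hε, H⟩ := Metric.eventually_nhds_iff.1 h
    refine ⟨ε / 2, by linarith, fun y h1 h2 => H ?_⟩
    rw [Real.dist_eq, abs_lt]
    constructor <;> linarith
  · rintro ⟨η, hη, H⟩
    filter_upwards [Icc_mem_nhds (show x - η < x by linarith) (show x < x + η by linarith)]
      with y hy
    exact H y hy.1 hy.2

lemma per_mem_G0 (f : F01) : per f ∈ Gx 0 := by
  obtain ⟨η, hη, h1, h2⟩ := f.2
  refine mem_Gx_iff.2 ⟨min η (1 / 2), lt_min hη (by norm_num), fun y hy1 hy2 => ?_⟩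
  have m1 := min_le_left η (1 / 2)
  have m2 := min_le_right η (1 / 2)
  show ap (perG f) y = y
  rcases le_or_gt 0 y with h | h
  · rw [perG_apply _ h (by linarith), h1 _ (by linarith)]
  · have := ap_add_one (perG f) y
    rw [perG_apply _ (by linarith) (by linarith), h2 _ (by linarith)] at this
    linarith

lemma exists_per {g : Gam} (hg : g ∈ Gx 0) : ∃ f : F01, per f = g := by
  obtain ⟨η, hη, H⟩ := mem_Gx_iff.1 hg
  have g0 : ap g 0 = 0 := H 0 (by linarith) (by linarith)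
  have g1 : ap g 1 = 1 := by
    have := ap_add_one g 0
    rw [zero_add, g0] at this
    linarith
  obtain ⟨k, hk, k1, k2⟩ := exists_glue (ap_mem_P g) P.one_mem A.one_mem g1
  obtain ⟨l, hl, l1, l2⟩ := exists_glue P.one_mem hk A.zero_mem
    (by rw [k1 _ zero_le_one, g0]; rfl)
  have m1 := min_le_left η 1
  have m2 := min_le_right η 1
  refine ⟨⟨⟨l, hl⟩, min η 1, lt_min hη one_pos, fun y hy => ?_, fun y hy => ?_⟩, ?_⟩
  · show l y = y
    rcases le_total y 0 with h | h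
    · rw [l1 _ h]; rfl
    · rw [l2 _ h, k1 _ (by linarith), H _ (by linarith) (by linarith)]
  · show l y = y
    rw [l2 _ (by linarith)]
    rcases le_total y 1 with h | h
    · rw [k1 _ h]
      have := ap_add_one g (y - 1)
      rw [sub_add_cancel, H (y - 1) (by linarith) (by linarith)] at this
      linarith
    · rw [k2 _ h]; rfl
  · apply Gam_ext01
    intro y h0 h1
    show ap (perG _) y = _
    rw [perG_apply _ h0 h1]
    show l y = _
    rw [l2 _ h0, k1 _ h1.le]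

theorem G0_perfect : Gx 0 ≤ ⁅Gx 0, Gx 0⁆ := by
  intro g hg
  obtain ⟨f, rfl⟩ := exists_per hg
  have h1 : f.1 ∈ ⁅F01, F01⁆ := F01_perfect f.2
  rw [← Subgroup.map_subtype_commutator] at h1
  obtain ⟨f', hf', e⟩ := h1
  have : f' = f := Subtype.ext e
  subst this
  have h2 : per f' ∈ Subgroup.map per (commutator F01) := ⟨f', hf', rfl⟩
  rw [commutator, Subgroup.map_commutator] at h2
  have hle : Subgroup.map per ⊤ ≤ Gx 0 := by
    rintro _ ⟨f, -, rfl⟩
    exact per_mem_G0 f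
  exact Subgroup.commutator_mono hle hle h2

noncomputable def rot (c : A) : Gam := ⟨tr c, fun y => by simp; ring⟩

@[simp] lemma rot_apply (c : A) (y : ℝ) : ap (rot c) y = y + c := tr_apply c y

lemma rot_inv_apply (c : A) (y : ℝ) : ap (rot c)⁻¹ y = y - c := by
  rw [ap_inv_eq_iff]; simp

lemma conj_mem_Gx {g : Gam} {x : ℝ} (hg : g ∈ Gx x) (h : Gam) : h * g * h⁻¹ ∈ Gx (ap h x) := by
  have ht : Tendsto (ap h⁻¹) (𝓝 (ap h x)) (𝓝 x) := by
    have := (ap h⁻¹).continuous.tendsto (ap h x)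
    rwa [ap_inv_ap] at this
  filter_upwards [ht.eventually hg] with y hy
  simp only [ap_mul]
  rw [hy, ap_ap_inv]

lemma Gx_add_int {g : Gam} {x : ℝ} (hg : g ∈ Gx x) (k : ℤ) : g ∈ Gx (x + k) := by
  obtain ⟨η, hη, H⟩ := mem_Gx_iff.1 hg
  refine mem_Gx_iff.2 ⟨η, hη, fun y h1 h2 => ?_⟩
  have := ap_add_int g (y - k) k
  rw [sub_add_cancel, H (y - k) (by linarith) (by linarith)] at this
  linarith

/-- extension of a local PL map inside (0,1) to an element trivial near 0 -/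
lemma ext0 {g : ℝ ≃o ℝ} (hg : g ∈ P) {a b : ℝ} (ha : a ∈ A) (hb : b ∈ A) (hab : a ≤ b)
    (h1 : 0 < a) (h2 : 0 < g a) (h3 : b < 1) (h4 : g b < 1) :
    ∃ h ∈ Gx 0, ∀ y, a ≤ y → y ≤ b → ap h y = g y := by
  obtain ⟨lo, hlo, l1, l2⟩ := exists_A_btwn (lt_min h1 h2)
  obtain ⟨hi, hhi, l3, l4⟩ := exists_A_btwn (max_lt h3 h4)
  obtain ⟨k, hk, k1, k2, k3⟩ := exists_cut hg hlo ha hb hhi hab (l2.trans_le (min_le_left _ _))
    (l2.trans_le (min_le_right _ _)) ((le_max_left _ _).trans_lt l3)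
    ((le_max_right _ _).trans_lt l3)
  have m1 := min_le_left lo (1 - hi)
  have m2 := min_le_right lo (1 - hi)
  let f : F01 := ⟨⟨k, hk⟩, min lo (1 - hi), lt_min l1 (by linarith),
    fun y hy => k1 y (by linarith), fun y hy => k3 y (by linarith)⟩
  refine ⟨per f, per_mem_G0 f, fun y hy1 hy2 => ?_⟩
  show ap (perG f) y = _
  rw [perG_apply _ (by linarith) (by linarith)]
  exact k2 y hy1 hy2

lemma two_trans {a b c d : ℝ} (ha : a ∈ A) (hb : b ∈ A) (hc : c ∈ A) (hd : d ∈ A)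
    (h1 : 0 < a) (h2 : a < b) (h3 : b < 1) (h4 : 0 < c) (h5 : c < d) (h6 : d < 1) :
    ∃ h ∈ Gx 0, ap h a = c ∧ ap h b = d := by
  obtain ⟨g, hg, e1, e2⟩ := exists_int_map ha hb hc hd h2 h5
  obtain ⟨h, hh, H⟩ := ext0 hg ha hb h2.le h1 (by rwa [e1]) h3 (by rwa [e2])
  exact ⟨h, hh, by rw [H a le_rfl h2.le, e1], by rw [H b h2.le le_rfl, e2]⟩

lemma rot_zpow (k : ℤ) (y : ℝ) : ap (rot 1 ^ k) y = y + k := by
  have h : (rot 1 ^ k).1 = tr (k • (1 : A)) := by
    rw [tr_zsmul]; rfl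
  rw [ap_def, h]
  simp

theorem gen_top (K : Subgroup Gam) (hK : ∀ x ∈ A, Gx x ≤ K) (h1 : rot 1 ∈ K) (g : Gam) :
    g ∈ K := by
  set g₁ := rot 1 ^ (-⌊ap g 0⌋) * g with hg₁
  have e0 : ap g₁ 0 = Int.fract (ap g 0) := by
    rw [hg₁, ap_mul, rot_zpow, Int.fract]; push_cast; ring
  have p0 : 0 ≤ ap g₁ 0 := by rw [e0]; exact Int.fract_nonneg _
  have p1 : ap g₁ 0 < 1 := by rw [e0]; exact Int.fract_lt_one _
  suffices g₁ ∈ K by
    have e : g = rot 1 ^ (⌊ap g 0⌋) * g₁ := by rw [hg₁]; group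
    rw [e]
    exact K.mul_mem (K.zpow_mem h1 _) this
  obtain ⟨y, hy, y1, y2⟩ := exists_A_btwn p1
  have hy0 : 0 < y := p0.trans_lt y1
  have q1 : ap g₁⁻¹ (y - 1) < 0 := by
    apply (ap g₁).lt_iff_lt.1
    rw [ap_ap_inv]; linarith
  have q2 : 0 < ap g₁⁻¹ y := by
    apply (ap g₁).lt_iff_lt.1
    rw [ap_ap_inv]; linarith
  obtain ⟨a, ha, a1, a2⟩ := exists_A_btwn (max_lt (show y - 1 < 0 by linarith) q1)
  obtain ⟨b, hb, b1, b2⟩ := exists_A_btwn (lt_min hy0 q2)
  have a3 : y - 1 < ap g₁ a := by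
    have := (ap g₁).strictMono ((le_max_right _ _).trans_lt a1)
    rwa [ap_ap_inv] at this
  have b3 : ap g₁ b < y := by
    have := (ap g₁).strictMono (b2.trans_le (min_le_right _ _))
    rwa [ap_ap_inv] at this
  have a4 : y - 1 < a := (le_max_left _ _).trans_lt a1
  have b4 : b < y := b2.trans_le (min_le_left _ _)
  let c : A := ⟨y - 1, A.sub_mem hy A.one_mem⟩
  have hc : (c : ℝ) = y - 1 := rfl
  obtain ⟨h, hh, H⟩ := ext0 (ap_mem_P ((rot c)⁻¹ * g₁ * rot c)) (A.sub_mem ha c.2)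
    (A.sub_mem hb c.2) (by linarith) (by linarith)
    (by simp only [ap_mul, rot_inv_apply, rot_apply, sub_add_cancel]; linarith) (by linarith)
    (by simp only [ap_mul, rot_inv_apply, rot_apply, sub_add_cancel]; linarith)
  have m1 : rot c * h * (rot c)⁻¹ ∈ K := hK _ ((ap_mem_A _).2 A.zero_mem) (conj_mem_Gx hh (rot c))
  have m2 : (rot c * h * (rot c)⁻¹)⁻¹ * g₁ ∈ Gx 0 := by
    filter_upwards [Icc_mem_nhds a2 b1] with z hz
    rw [ap_mul, ap_inv_eq_iff]
    simp only [ap_mul, rot_inv_apply, rot_apply]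
    rw [H _ (by linarith [hz.1]) (by linarith [hz.2])]
    simp only [ap_mul, rot_inv_apply, rot_apply, sub_add_cancel]
  have e : g₁ = (rot c * h * (rot c)⁻¹) * ((rot c * h * (rot c)⁻¹)⁻¹ * g₁) := by group
  rw [e]
  exact K.mul_mem m1 (hK 0 A.zero_mem m2)

/-- support contained in (u, v) + Z -/
def Sup (u v : ℝ) (g : Gam) : Prop := ∀ y, v - 1 ≤ y → y ≤ u → ap g y = y

lemma Sup.conj {u v : ℝ} {g : Gam} (H : Sup u v g) (t : Gam) :
    Sup (ap t u) (ap t v) (t * g * t⁻¹) := by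
  intro y h1 h2
  simp only [ap_mul]
  rw [H, ap_ap_inv]
  · apply (ap t).le_iff_le.1
    have := ap_add_one t (v - 1)
    rw [sub_add_cancel] at this
    rw [ap_ap_inv]; linarith
  · apply (ap t).le_iff_le.1
    rw [ap_ap_inv]; exact h2

lemma Sup.commute {u v u' v' : ℝ} {g h : Gam} (H : Sup u v g) (H' : Sup u' v' h)
    (h0 : 0 ≤ u) (h1 : v ≤ u') (h2 : v' ≤ 1) : Commute g h := by
  have : Commute (ap g) (ap h) := by
    apply commute_of_disjoint
    intro y
    have f0 := Int.fract_nonneg y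
    have f1 := Int.fract_lt_one y
    rcases le_total (Int.fract y) u' with hy | hy
    · right
      rw [← Int.fract_add_floor y, ap_add_int, H' _ (by linarith) hy]
    · left
      have e : y = (Int.fract y - 1) + ((⌊y⌋ + 1 : ℤ) : ℝ) := by
        push_cast; rw [Int.fract]; ring
      rw [e, ap_add_int, H _ (by linarith) (by linarith)]
  apply Gam_ext
  intro y
  exact congrArg (fun φ : ℝ ≃o ℝ => φ y) this.eq

lemma exists_Sup {a b : Gam} (ha : a ∈ Gx 0) (hb : b ∈ Gx 0) :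
    ∃ e ∈ A, 0 < e ∧ e < 1 / 2 ∧ Sup e (1 - e) a ∧ Sup e (1 - e) b := by
  obtain ⟨η, hη, H⟩ := mem_Gx_iff.1 ha
  obtain ⟨ε, hε, H'⟩ := mem_Gx_iff.1 hb
  obtain ⟨e, he, e1, e2⟩ := exists_A_btwn
    (lt_min (lt_min hη hε) (show (0 : ℝ) < 1 / 2 by norm_num))
  have m1 : e < η := e2.trans_le ((min_le_left _ _).trans (min_le_left _ _))
  have m2 : e < ε := e2.trans_le ((min_le_left _ _).trans (min_le_right _ _))
  refine ⟨e, he, e1, e2.trans_le (min_le_right _ _), fun y h1 h2 => H y (by linarith) (by linarith),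
    fun y h1 h2 => H' y (by linarith) (by linarith)⟩

lemma commuting_conj {a b : Gam} (ha : a ∈ Gx 0) (hb : b ∈ Gx 0) :
    ∃ t ∈ Gx 0, Commute (t * a * t⁻¹) a ∧ Commute (t * a * t⁻¹) b ∧
      Commute (t * b * t⁻¹) a ∧ Commute (t * b * t⁻¹) b := by
  obtain ⟨e, he, e1, e2, Sa, Sb⟩ := exists_Sup ha hb
  obtain ⟨t, ht, t1, t2⟩ := two_trans he (A.sub_mem A.one_mem he) (half_mul_mem he) he e1
    (by linarith) (by linarith) (by linarith) (by linarith) (by linarith)
  have Sa' := Sa.conj t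
  have Sb' := Sb.conj t
  rw [t1, t2] at Sa' Sb'
  exact ⟨t, ht, Sa'.commute Sa (by linarith) le_rfl (by linarith),
    Sa'.commute Sb (by linarith) le_rfl (by linarith),
    Sb'.commute Sa (by linarith) le_rfl (by linarith),
    Sb'.commute Sb (by linarith) le_rfl (by linarith)⟩

noncomputable def halfA : A := ⟨1 / 2, half_mem_A⟩

theorem higman {X : Type*} [Group X] (ρ : Gam →* X) (h1 : ρ (rot halfA) = 1) (g : Gam) :
    ρ g = 1 := by
  have hG0 : Gx 0 ≤ ρ.ker := by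
    refine G0_perfect.trans (Subgroup.commutator_le.2 fun a ha b hb => ?_)
    obtain ⟨e, he, e1, e2, Sa, Sb⟩ := exists_Sup ha hb
    have q1 : (1 / 2 / 2 : ℝ) ∈ A := half_mul_mem half_mem_A
    have q2 : (1 / 2 / 2 / 2 : ℝ) ∈ A := half_mul_mem q1
    obtain ⟨t, ht, t1, t2⟩ := two_trans he (A.sub_mem A.one_mem he) q2 q1 e1
      (by linarith) (by linarith) (by norm_num) (by norm_num) (by norm_num)
    have Sa' := Sa.conj t
    have Sb' := Sb.conj t
    rw [t1, t2] at Sa' Sb'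
    have Sa'' := Sa'.conj (rot halfA)
    simp only [rot_apply, halfA] at Sa''
    have c := Sb'.commute Sa'' (by norm_num) (by norm_num) (by norm_num)
    have c2 := c.map ρ
    simp only [map_mul, map_inv] at c2
    change Commute _ (ρ (rot halfA) * _ * (ρ (rot halfA))⁻¹) at c2
    rw [h1, one_mul, inv_one, mul_one] at c2
    rw [MonoidHom.mem_ker, map_commutatorElement, commutatorElement_eq_one_iff_commute]
    have c3 : Commute (ρ b) (ρ a) := by
      have := c2.eq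
      have e : ρ b * ρ a = (ρ t)⁻¹ * (ρ t * ρ b * (ρ t)⁻¹ * (ρ t * ρ a * (ρ t)⁻¹)) * ρ t := by group
      show ρ b * ρ a = ρ a * ρ b
      rw [e, this]; group
    exact c3.symm
  refine gen_top ρ.ker (fun x hx g hg => ?_) ?_ g
  · have := hG0 (by simpa using conj_mem_Gx hg (rot ⟨-x, A.neg_mem hx⟩))
    rw [MonoidHom.mem_ker] at this ⊢
    simp only [map_mul, map_inv] at this
    calc ρ g = (ρ (rot ⟨-x, A.neg_mem hx⟩))⁻¹ * (ρ (rot ⟨-x, A.neg_mem hx⟩) * ρ g *
        (ρ (rot ⟨-x, A.neg_mem hx⟩))⁻¹) * ρ (rot ⟨-x, A.neg_mem hx⟩) := by group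
      _ = 1 := by rw [this]; group
  · have : rot 1 = rot halfA * rot halfA := by
      apply Gam_ext; intro y
      simp [halfA]; ring
    rw [MonoidHom.mem_ker, this, map_mul, h1, one_mul]

/-- a normal-type perfectness statement: a subgroup containing all commutators and the
translation by one is everything -/
theorem top_of_commutators (K : Subgroup Gam) (hK : ∀ a b : Gam, ⁅a, b⁆ ∈ K) (h1 : rot 1 ∈ K)
    (g : Gam) : g ∈ K := by
  refine gen_top K (fun x hx g hg => ?_) h1 g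
  set r := rot ⟨-x, A.neg_mem hx⟩
  have h0 : r * g * r⁻¹ ∈ Gx 0 := by simpa [r] using conj_mem_Gx hg r
  have h2 : r * g * r⁻¹ ∈ K :=
    (Subgroup.commutator_le.2 fun a _ b _ => hK a b) (G0_perfect h0)
  have e : g = ⁅r, g⁆⁻¹ * (r * g * r⁻¹) := by
    rw [commutatorElement_def]; group
  rw [e]
  exact K.mul_mem (K.inv_mem (hK _ _)) h2

end Pool.Agent.Lib.MP_9d59aa_al
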