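import Pool.Agent.Lib.MP_9d59aa_al.Analysis
import Pool.Agent.Lib.MP_9d59aa_al.Gamma

open Filter Topology Set
open scoped commutatorElement

namespace Pool.Agent.Lib.MP_9d59aa_al

def X01 : Set ℝ := {x | x ∈ A ∧ 0 < x ∧ x < 1}

lemma G0_maps {g : Gam} (hg : g ∈ Gx 0) {x : ℝ} (hx : x ∈ X01) : ap g x ∈ X01 := by
  have g0 : ap g 0 = 0 := Filter.Eventually.self_of_nhds (p := fun y => ap g y = y) hg
  have g1 : ap g 1 = 1 := by
    have := ap_add_one g 0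
    rw [zero_add, g0] at this
    linarith
  refine ⟨(ap_mem_A g).2 hx.1, ?_, ?_⟩
  · rw [← g0]; exact (ap g).strictMono hx.2.1
  · rw [← g1]; exact (ap g).strictMono hx.2.2

lemma quarter_mem_Lam : (1 / 4 : ℝ) ∈ Lam := ⟨-2, 0, by norm_num⟩

theorem elim_of {H : Type} [Group H] (q0 : H →* Gam) (hq0 : ∀ e, q0 e ∈ Gx 0)
    (hsurj : ∀ g ∈ Gx 0, ∃ e, q0 e = g) (σ : H →* (ℝ ≃o ℝ)) (hC1 : ∀ e, ContDiff ℝ 1 (σ e))
    (k : ℝ → ℝ) (lo hi : ℝ) (hmono : StrictMonoOn k X01) (hb : ∀ x ∈ X01, lo ≤ k x ∧ k x ≤ hi)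
    (heq : ∀ e, ∀ x ∈ X01, σ e (k x) = k (ap (q0 e) x)) : False := by
  set θ : ℝ ≃o ℝ := affIso (1 / 4) (1 / 4) (Lam_pos quarter_mem_Lam) with hθ
  have θP : θ ∈ P := affIso_mem quarter_mem_Lam Setup.quarter_mem_A
  have θa : ∀ y, θ y = 1 / 4 * y + 1 / 4 := fun y => rfl
  have θX : ∀ x, θ x ∈ X01 ↔ x ∈ XX := by
    intro x
    simp only [X01, XX, mem_ofPred_eq, P_mem_A θP]
    rw [θa]
    constructor
    · rintro ⟨h1, h2, h3⟩; exact ⟨h1, by linarith, by linarith⟩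
    · rintro ⟨h1, h2, h3⟩; exact ⟨h1, by linarith, by linarith⟩
  let q : H →* (ℝ ≃o ℝ) := (MulAut.conj θ⁻¹).toMonoidHom.comp (ap.comp q0)
  have hq : ∀ e y, θ (q e y) = ap (q0 e) (θ y) := by
    intro e y
    show θ ((θ⁻¹ * ap (q0 e) * θ⁻¹⁻¹) y) = _
    rw [inv_inv, RelIso.mul_apply, RelIso.mul_apply, RelIso.apply_inv_self]
  refine Setup.elim (H := H) ⟨q, σ, fun x => k (θ x), lo, hi, hC1, ?_, ?_, ?_, ?_, ?_⟩
  · intro e x hx
    rw [← θX, hq]
    exact G0_maps (hq0 e) ((θX x).2 hx)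
  · intro a ha b hb hab
    exact hmono ((θX a).2 ha) ((θX b).2 hb) (θ.strictMono hab)
  · intro x hx
    exact hb _ ((θX x).2 hx)
  · intro e x hx
    rw [heq e _ ((θX x).2 hx), hq]
  · intro g hg a ha b hb hab h1 h2 h3 h4
    obtain ⟨h, hh, H1⟩ := ext0 (P.mul_mem (P.mul_mem θP hg) (P.inv_mem θP)) ((P_mem_A θP).2 ha)
      ((P_mem_A θP).2 hb) (θ.monotone hab) (by rw [θa]; linarith)
      (by simp only [RelIso.mul_apply, RelIso.inv_apply_self]; rw [θa]; linarith)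
      (by rw [θa]; linarith)
      (by simp only [RelIso.mul_apply, RelIso.inv_apply_self]; rw [θa]; linarith)
    obtain ⟨e, rfl⟩ := hsurj h hh
    refine ⟨e, fun y y1 y2 => θ.injective ?_⟩
    rw [hq, H1 _ (θ.monotone y1) (θ.monotone y2)]
    simp only [RelIso.mul_apply, RelIso.inv_apply_self]

noncomputable def negIso (φ : ℝ ≃o ℝ) : ℝ ≃o ℝ :=
  StrictMono.orderIsoOfRightInverse (fun x => -φ (-x))
    (fun _ _ h => neg_lt_neg (φ.strictMono (neg_lt_neg h))) (fun x => -φ.symm (-x))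
    (fun x => by simp)

@[simp] lemma negIso_apply (φ : ℝ ≃o ℝ) (x : ℝ) : negIso φ x = -φ (-x) := rfl

noncomputable def negConj : (ℝ ≃o ℝ) →* (ℝ ≃o ℝ) :=
  MonoidHom.mk' negIso (fun φ ψ => by ext x; simp)

structure Ext (E : Type) [Group E] : Type where
  p : E →* Gam
  σ : E →* (ℝ ≃o ℝ)
  z : E
  hsurj : Function.Surjective p
  hper : ∀ e y, σ e (y + 1) = σ e y + 1
  hC1 : ∀ e, ContDiff ℝ 1 (σ e)
  hker : ∀ e, p e = 1 → ∃ j : ℤ, ∀ y, σ e y = y + j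
  hrot : ∀ e, p e = rot 1 → ∃ j : ℤ, ∀ y, σ e y = y + j
  pz : p z = 1
  σz : ∀ y, σ z y = y + 1

namespace Ext

variable {E : Type} [Group E] (S : Ext E)

lemma σ_mul (a b : E) (y : ℝ) : S.σ (a * b) y = S.σ a (S.σ b y) := by
  rw [map_mul, RelIso.mul_apply]

lemma σ_add_int (e : E) (y : ℝ) (j : ℤ) : S.σ e (y + j) = S.σ e y + j := by
  simpa using add_int_of_add_one (S.hper e) y j

lemma σ_zpow (j : ℤ) (y : ℝ) : S.σ (S.z ^ j) y = y + j := by
  induction j using Int.induction_on generalizing y with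
  | zero => simp
  | succ j ih =>
    rw [zpow_add_one, S.σ_mul, S.σz, ih]; push_cast; ring
  | pred j ih =>
    rw [zpow_sub_one, S.σ_mul, ih]
    have : S.σ S.z⁻¹ y = y - 1 := by
      apply (S.σ S.z).injective
      rw [← S.σ_mul, mul_inv_cancel, map_one, S.σz]; simp
    rw [this]; push_cast; ring

def toC : E →* CircleDeg1Lift where
  toFun e := ⟨⟨S.σ e, (S.σ e).monotone⟩, S.hper e⟩
  map_one' := by ext x; simp
  map_mul' a b := by ext x; simp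

lemma toC_apply (e : E) (y : ℝ) : S.toC e y = S.σ e y := rfl

noncomputable def tn (e : E) : ℝ := (S.toC e).translationNumber

lemma tn_conj (t a : E) : S.tn (t * a * t⁻¹) = S.tn a := by
  symm
  apply CircleDeg1Lift.translationNumber_eq_of_semiconjBy (f := S.toC t)
  show S.toC t * S.toC a = S.toC (t * a * t⁻¹) * S.toC t
  rw [← map_mul, ← map_mul, inv_mul_cancel_right]

lemma tn_mul_of_commute {a b : E} (h : Commute (S.toC a) (S.toC b)) :
    S.tn (a * b) = S.tn a + S.tn b := by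
  rw [tn, map_mul, CircleDeg1Lift.translationNumber_mul_of_commute h]
  rfl

lemma toC_commute {a b : E} (h : Commute (S.p a) (S.p b)) : Commute (S.toC a) (S.toC b) := by
  obtain ⟨j, hj⟩ := S.hker ⁅a, b⁆ (by
    rw [map_commutatorElement, commutatorElement_eq_one_iff_commute]; exact h)
  have h1 : S.tn ⁅a, b⁆ = j :=
    CircleDeg1Lift.translationNumber_of_eq_add_int (S.toC ⁅a, b⁆) (x := 0) (hj 0)
  have h2 : Commute (S.toC ⁅a, b⁆) (S.toC b) := by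
    ext y
    simp only [CircleDeg1Lift.mul_apply, toC_apply]
    rw [hj, hj, S.σ_add_int]
  have h3 := S.tn_mul_of_commute h2
  have h4 : ⁅a, b⁆ * b = a * b * a⁻¹ := by rw [commutatorElement_def]; group
  rw [h4, S.tn_conj, h1] at h3
  have h5 : (j : ℝ) = 0 := by linarith
  have h6 : a * b = ⁅a, b⁆ * (b * a) := by rw [commutatorElement_def]; group
  show S.toC a * S.toC b = S.toC b * S.toC a
  rw [← map_mul, ← map_mul, h6]
  ext y
  rw [toC_apply, toC_apply, S.σ_mul, hj, h5, add_zero]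

lemma defect_le (a b : E) : |S.tn (a * b) - S.tn a - S.tn b| ≤ 4 := by
  have h1 := (S.toC (a * b)).dist_map_zero_translationNumber_le
  have h2 := (S.toC a).dist_map_zero_translationNumber_le
  have h3 := (S.toC b).dist_map_zero_translationNumber_le
  have h4 := CircleDeg1Lift.dist_map_map_zero_lt (S.toC a) (S.toC b)
  rw [Real.dist_eq, abs_le] at h1 h2 h3
  rw [Real.dist_eq, abs_lt] at h4
  rw [map_mul, CircleDeg1Lift.mul_apply, ← map_mul] at h1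
  rw [abs_le]
  simp only [tn]
  constructor <;> linarith [h1.1, h1.2, h2.1, h2.2, h3.1, h3.2, h4.1, h4.2]

lemma defect_pow (n : ℕ) : ∀ a b : E, S.p a ∈ Gx 0 → S.p b ∈ Gx 0 →
    2 ^ n * |S.tn (a * b) - S.tn a - S.tn b| ≤ 4 := by
  induction n with
  | zero => intro a b _ _; simpa using S.defect_le a b
  | succ n ih =>
    intro a b ha hb
    obtain ⟨t0, ht0, c1, c2, c3, c4⟩ := commuting_conj ha hb
    obtain ⟨t, rfl⟩ := S.hsurj t0
    simp only [← map_inv, ← map_mul] at c1 c2 c3 c4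
    replace c1 := S.toC_commute c1
    replace c2 := S.toC_commute c2
    replace c3 := S.toC_commute c3
    replace c4 := S.toC_commute c4
    have m : ∀ c : E, S.p c ∈ Gx 0 → S.p (c * (t * c * t⁻¹)) ∈ Gx 0 := by
      intro c hc
      simp only [map_mul, map_inv]
      exact (Gx 0).mul_mem hc ((Gx 0).mul_mem ((Gx 0).mul_mem ht0 hc) ((Gx 0).inv_mem ht0))
    have := ih _ _ (m a ha) (m b hb)
    rw [S.tn_mul_of_commute c1.symm, S.tn_mul_of_commute c4.symm, S.tn_conj, S.tn_conj] at this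
    have e1 : S.tn (a * (t * a * t⁻¹) * (b * (t * b * t⁻¹))) =
        S.tn ((a * b) * (t * (a * b) * t⁻¹)) := by
      have e : t * (a * b) * t⁻¹ = (t * a * t⁻¹) * (t * b * t⁻¹) := by group
      rw [e]
      simp only [tn]
      congr 1
      rw [map_mul, map_mul _ a, map_mul _ b, map_mul _ (a * b), map_mul _ a b,
        map_mul _ (t * a * t⁻¹)]
      have hc := c2.eq
      generalize S.toC (t * a * t⁻¹) = u at hc ⊢
      generalize S.toC (t * b * t⁻¹) = v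
      rw [mul_assoc, mul_assoc, ← mul_assoc u, hc, mul_assoc]
    have c5 : Commute (S.toC (a * b)) (S.toC (t * (a * b) * t⁻¹)) := by
      have e : t * (a * b) * t⁻¹ = (t * a * t⁻¹) * (t * b * t⁻¹) := by group
      rw [e, map_mul, map_mul _ (t * a * t⁻¹)]
      exact Commute.mul_left (Commute.mul_right c1.symm c3.symm) (Commute.mul_right c2.symm c4.symm)
    rw [e1, S.tn_mul_of_commute c5, S.tn_conj] at this
    have e2 : S.tn (a * b) + S.tn (a * b) - (S.tn a + S.tn a) - (S.tn b + S.tn b) =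
        2 * (S.tn (a * b) - S.tn a - S.tn b) := by ring
    rw [e2, abs_mul, abs_two] at this
    rw [pow_succ]
    linarith

lemma tn_add {a b : E} (ha : S.p a ∈ Gx 0) (hb : S.p b ∈ Gx 0) :
    S.tn (a * b) = S.tn a + S.tn b := by
  by_contra hne
  have hpos : 0 < |S.tn (a * b) - S.tn a - S.tn b| := abs_pos.2 (fun h => hne (by linarith))
  obtain ⟨n, hn⟩ := pow_unbounded_of_one_lt (4 / |S.tn (a * b) - S.tn a - S.tn b|)
    (show (1 : ℝ) < 2 by norm_num)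
  rw [div_lt_iff₀ hpos] at hn
  linarith [S.defect_pow n a b ha hb]

lemma tn_one : S.tn 1 = 0 := by rw [tn, map_one, CircleDeg1Lift.translationNumber_one]

lemma tn_inv {a : E} (ha : S.p a ∈ Gx 0) : S.tn a⁻¹ = -S.tn a := by
  have := S.tn_add ha (b := a⁻¹) (by rw [map_inv]; exact (Gx 0).inv_mem ha)
  rw [mul_inv_cancel, S.tn_one] at this
  linarith

def Zs : Subgroup E where
  carrier := {e | S.p e ∈ Gx 0 ∧ S.tn e = 0}
  one_mem' := ⟨by rw [map_one]; exact (Gx 0).one_mem, S.tn_one⟩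
  mul_mem' := by
    rintro a b ⟨ha, ha'⟩ ⟨hb, hb'⟩
    exact ⟨by rw [map_mul]; exact (Gx 0).mul_mem ha hb, by rw [S.tn_add ha hb, ha', hb', add_zero]⟩
  inv_mem' := by
    rintro a ⟨ha, ha'⟩
    exact ⟨by rw [map_inv]; exact (Gx 0).inv_mem ha, by rw [S.tn_inv ha, ha', neg_zero]⟩

lemma Zs_surj {g : Gam} (hg : g ∈ Gx 0) : ∃ e ∈ S.Zs, S.p e = g := by
  have h1 : ⁅(Gx 0).comap S.p, (Gx 0).comap S.p⁆ ≤ S.Zs := by
    rw [Subgroup.commutator_le]
    intro a ha b hb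
    rw [Subgroup.mem_comap] at ha hb
    have hb' : S.p b⁻¹ ∈ Gx 0 := by rw [map_inv]; exact (Gx 0).inv_mem hb
    have hc : S.p (a * b * a⁻¹) ∈ Gx 0 := by
      simp only [map_mul, map_inv]
      exact (Gx 0).mul_mem ((Gx 0).mul_mem ha hb) ((Gx 0).inv_mem ha)
    refine ⟨by rw [commutatorElement_def, map_mul]; exact (Gx 0).mul_mem hc hb', ?_⟩
    rw [commutatorElement_def, S.tn_add hc hb', S.tn_conj, S.tn_inv hb, add_neg_cancel]
  have h2 := G0_perfect hg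
  rw [← Subgroup.map_comap_eq_self_of_surjective S.hsurj (Gx 0), ← Subgroup.map_commutator] at h2
  obtain ⟨e, he, rfl⟩ := h2
  exact ⟨e, h1 he, rfl⟩

def Fix (x : ℝ) : Set ℝ := {c | ∀ e, S.p e ∈ Gx x → ∃ j : ℤ, S.σ e c = c + j}

lemma Fix_zero_nonempty : (S.Fix 0).Nonempty := by
  set T : Set ℝ := {y | ∃ e ∈ S.Zs, S.σ e 0 = y}
  have hne : T.Nonempty := ⟨_, 1, S.Zs.one_mem, rfl⟩
  have hbd : BddAbove T := by
    refine ⟨1, ?_⟩
    rintro _ ⟨e, he, rfl⟩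
    have h1 := (S.toC e).dist_map_zero_translationNumber_le
    have h2 : (S.toC e).translationNumber = 0 := he.2
    rw [h2, Real.dist_eq, sub_zero, abs_le] at h1
    exact h1.2
  have hfix : ∀ e ∈ S.Zs, S.σ e (sSup T) = sSup T := by
    intro e he
    rw [(S.σ e).map_csSup' hne hbd]
    congr 1
    ext y
    constructor
    · rintro ⟨_, ⟨e', he', rfl⟩, rfl⟩
      exact ⟨e * e', S.Zs.mul_mem he he', S.σ_mul _ _ _⟩
    · rintro ⟨e', he', rfl⟩
      refine ⟨_, ⟨e⁻¹ * e', S.Zs.mul_mem (S.Zs.inv_mem he) he', rfl⟩, ?_⟩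
      rw [← S.σ_mul, mul_inv_cancel_left]
  refine ⟨sSup T, fun e he => ?_⟩
  obtain ⟨e', he', h⟩ := S.Zs_surj he
  obtain ⟨j, hj⟩ := S.hker (e * e'⁻¹) (by rw [map_mul, map_inv, h, mul_inv_cancel])
  refine ⟨j, ?_⟩
  rw [← hj, ← hfix e' he', ← S.σ_mul (e * e'⁻¹), inv_mul_cancel_right, hfix e' he']

lemma Fix_equiv {x c : ℝ} (hc : c ∈ S.Fix x) (e : E) : S.σ e c ∈ S.Fix (ap (S.p e) x) := by
  intro e' he'
  have := conj_mem_Gx he' (S.p e)⁻¹
  rw [ap_inv_ap, inv_inv, ← map_inv, ← map_mul, ← map_mul] at this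
  obtain ⟨j, hj⟩ := hc _ this
  refine ⟨j, ?_⟩
  rw [← S.σ_add_int, ← hj, ← S.σ_mul, ← S.σ_mul]
  congr 2
  group

lemma Fix_add_int {x c : ℝ} (hc : c ∈ S.Fix x) (m : ℤ) : c + m ∈ S.Fix x := by
  intro e he
  obtain ⟨j, hj⟩ := hc e he
  exact ⟨j, by rw [S.σ_add_int, hj]; ring⟩

lemma Fix_closed (x : ℝ) : IsClosed (S.Fix x) := by
  have : S.Fix x = ⋂ e, ⋂ (_ : S.p e ∈ Gx x),
      (fun c => S.σ e c - c) ⁻¹' (range (Int.cast : ℤ → ℝ)) := by
    ext c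
    simp only [Fix, mem_ofPred_eq, mem_iInter, mem_preimage, mem_range]
    refine forall_congr' fun e => forall_congr' fun _ => exists_congr fun j => ?_
    constructor <;> intro h <;> linarith
  rw [this]
  refine isClosed_iInter fun e => isClosed_iInter fun _ => ?_
  exact Int.isClosedEmbedding_coe_real.isClosed_range.preimage
    ((S.σ e).continuous.sub continuous_id)

lemma Fix_nonempty {x : ℝ} (hx : x ∈ A) : (S.Fix x).Nonempty := by
  obtain ⟨c, hc⟩ := S.Fix_zero_nonempty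
  obtain ⟨e, he⟩ := S.hsurj (rot ⟨x, hx⟩)
  have := S.Fix_equiv hc e
  rw [he, rot_apply, zero_add] at this
  exact ⟨_, this⟩

def Hs (c0 : ℝ) : Subgroup E where
  carrier := {e | S.p e ∈ Gx 0 ∧ S.σ e c0 = c0}
  one_mem' := ⟨by rw [map_one]; exact (Gx 0).one_mem, by rw [map_one]; rfl⟩
  mul_mem' := by
    rintro a b ⟨ha, ha'⟩ ⟨hb, hb'⟩
    exact ⟨by rw [map_mul]; exact (Gx 0).mul_mem ha hb, by rw [S.σ_mul, hb', ha']⟩
  inv_mem' := by
    rintro a ⟨ha, ha'⟩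
    refine ⟨by rw [map_inv]; exact (Gx 0).inv_mem ha, ?_⟩
    apply (S.σ a).injective
    rw [← S.σ_mul, mul_inv_cancel, map_one, ha']; rfl

lemma exists_fix_lift {c : ℝ} {e : E} {j : ℤ} (h : S.σ e c = c + j) :
    ∃ e', S.p e' = S.p e ∧ S.σ e' c = c := by
  refine ⟨S.z ^ (-j) * e, by rw [map_mul, map_zpow, S.pz, one_zpow, one_mul], ?_⟩
  rw [S.σ_mul, h, S.σ_zpow]; push_cast; ring

lemma Hs_surj {c0 : ℝ} (hc : c0 ∈ S.Fix 0) {g : Gam} (hg : g ∈ Gx 0) :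
    ∃ e ∈ S.Hs c0, S.p e = g := by
  obtain ⟨e, rfl⟩ := S.hsurj g
  obtain ⟨j, hj⟩ := hc e hg
  obtain ⟨e', h1, h2⟩ := S.exists_fix_lift hj
  exact ⟨e', ⟨by rw [h1]; exact hg, h2⟩, h1⟩

noncomputable def kk (c0 x : ℝ) : ℝ := sInf (S.Fix x ∩ Ici c0)

lemma exists_near (c0 : ℝ) {x : ℝ} (hx : x ∈ A) : ∃ c ∈ S.Fix x ∩ Ici c0, c ≤ c0 + 1 := by
  obtain ⟨c, hc⟩ := S.Fix_nonempty hx
  refine ⟨c + ⌈c0 - c⌉, ⟨S.Fix_add_int hc _, ?_⟩, ?_⟩
  · have := Int.le_ceil (c0 - c)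
    simp only [mem_Ici]; linarith
  · have := Int.ceil_lt_add_one (c0 - c)
    linarith

lemma kk_mem (c0 : ℝ) {x : ℝ} (hx : x ∈ A) : S.kk c0 x ∈ S.Fix x ∩ Ici c0 := by
  obtain ⟨c, hc, -⟩ := S.exists_near c0 hx
  exact ((S.Fix_closed x).inter isClosed_Ici).csInf_mem ⟨c, hc⟩ ⟨c0, fun y hy => hy.2⟩

lemma kk_le (c0 : ℝ) {x : ℝ} (hx : x ∈ A) : S.kk c0 x ≤ c0 + 1 := by
  obtain ⟨c, hc, h⟩ := S.exists_near c0 hx
  exact (csInf_le ⟨c0, fun y hy => hy.2⟩ hc).trans h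

lemma kk_equiv {c0 : ℝ} {e : E} (he : S.σ e c0 = c0) {x : ℝ} (hx : x ∈ A) :
    S.σ e (S.kk c0 x) = S.kk c0 (ap (S.p e) x) := by
  obtain ⟨c, hc, -⟩ := S.exists_near c0 hx
  rw [kk, (S.σ e).map_csInf' ⟨c, hc⟩ ⟨c0, fun y hy => hy.2⟩, kk]
  congr 1
  ext y
  constructor
  · rintro ⟨w, hw, rfl⟩
    refine ⟨S.Fix_equiv hw.1 e, ?_⟩
    rw [mem_Ici, ← he]
    exact (S.σ e).monotone hw.2
  · rintro ⟨h1, h2⟩
    have e1 : S.σ e (S.σ e⁻¹ y) = y := by rw [← S.σ_mul, mul_inv_cancel, map_one]; rfl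
    refine ⟨S.σ e⁻¹ y, ⟨?_, ?_⟩, e1⟩
    · have := S.Fix_equiv h1 e⁻¹
      rwa [map_inv S.p, ap_inv_ap] at this
    · rw [mem_Ici]
      apply (S.σ e).le_iff_le.1
      rw [he, e1]; exact h2

lemma of_global_fix {c : ℝ} (hc : ∀ x ∈ A, c ∈ S.Fix x) :
    ∃ e, S.p e = rot halfA ∧ S.σ e = 1 := by
  let K : Subgroup Gam :=
    { carrier := {g | ∃ e, S.p e = g ∧ S.σ e c = c}
      one_mem' := ⟨1, map_one _, by rw [map_one]; rfl⟩
      mul_mem' := by
        rintro _ _ ⟨a, rfl, ha⟩ ⟨b, rfl, hb⟩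
        exact ⟨a * b, map_mul _ _ _, by rw [S.σ_mul, hb, ha]⟩
      inv_mem' := by
        rintro _ ⟨a, rfl, ha⟩
        refine ⟨a⁻¹, map_inv _ _, ?_⟩
        apply (S.σ a).injective
        rw [← S.σ_mul, mul_inv_cancel, map_one, ha]; rfl }
  have hK : ∀ g, g ∈ K := by
    refine gen_top K (fun x hx g hg => ?_) ?_
    · obtain ⟨e, rfl⟩ := S.hsurj g
      obtain ⟨j, hj⟩ := hc x hx e hg
      exact S.exists_fix_lift hj
    · obtain ⟨e, he⟩ := S.hsurj (rot 1)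
      obtain ⟨j, hj⟩ := S.hrot e he
      rw [← he]
      exact S.exists_fix_lift (hj c)
  obtain ⟨e, he, hfix⟩ := hK (rot halfA)
  refine ⟨e, he, ?_⟩
  obtain ⟨j, hj⟩ := S.hrot (e * e) (by
    rw [map_mul, he]
    apply Gam_ext; intro y
    simp [halfA]; ring)
  have hj0 : (j : ℝ) = 0 := by
    have := hj c
    rw [S.σ_mul, hfix, hfix] at this
    linarith
  ext y
  have h2 := hj y
  rw [S.σ_mul, hj0, add_zero] at h2
  show S.σ e y = y
  rcases lt_trichotomy (S.σ e y) y with h | h | h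
  · have := (S.σ e).strictMono h
    linarith
  · exact h
  · have := (S.σ e).strictMono h
    linarith

theorem main : ∃ e, S.p e = rot halfA ∧ S.σ e = 1 := by
  obtain ⟨c0, hc0⟩ := S.Fix_zero_nonempty
  have q1 : (1 / 2 / 2 : ℝ) ∈ A := half_mul_mem half_mem_A
  have tr2 : ∀ a ∈ X01, ∀ b ∈ X01, a < b → ∃ e : E, S.σ e (S.kk c0 (1 / 2 / 2)) = S.kk c0 a ∧
      S.σ e (S.kk c0 (1 / 2)) = S.kk c0 b := by
    intro a ha b hb hab
    obtain ⟨t, ht, t1, t2⟩ := two_trans q1 half_mem_A ha.1 hb.1 (by norm_num) (by norm_num)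
      (by norm_num) ha.2.1 hab hb.2.2
    obtain ⟨e, he, rfl⟩ := S.Hs_surj hc0 ht
    exact ⟨e, by rw [S.kk_equiv he.2 q1, t1], by rw [S.kk_equiv he.2 half_mem_A, t2]⟩
  have hsurj : ∀ g ∈ Gx 0, ∃ e : S.Hs c0, (S.p.comp (S.Hs c0).subtype) e = g := by
    intro g hg
    obtain ⟨e, he, h⟩ := S.Hs_surj hc0 hg
    exact ⟨⟨e, he⟩, h⟩
  rcases lt_trichotomy (S.kk c0 (1 / 2 / 2)) (S.kk c0 (1 / 2)) with h | h | h
  · exfalso
    refine elim_of (S.p.comp (S.Hs c0).subtype) (fun e => e.2.1) hsurj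
      (S.σ.comp (S.Hs c0).subtype) (fun e => S.hC1 e) (S.kk c0) c0 (c0 + 1) ?_ ?_ ?_
    · intro a ha b hb hab
      obtain ⟨e, e1, e2⟩ := tr2 a ha b hb hab
      rw [← e1, ← e2]
      exact (S.σ e).strictMono h
    · exact fun x hx => ⟨(S.kk_mem c0 hx.1).2, S.kk_le c0 hx.1⟩
    · exact fun e x hx => S.kk_equiv e.2.2 hx.1
  · have hconst : ∀ a ∈ X01, ∀ b ∈ X01, S.kk c0 a = S.kk c0 b := by
      intro a ha b hb
      rcases lt_trichotomy a b with hab | hab | hab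
      · obtain ⟨e, e1, e2⟩ := tr2 a ha b hb hab
        rw [← e1, ← e2, h]
      · rw [hab]
      · obtain ⟨e, e1, e2⟩ := tr2 b hb a ha hab
        rw [← e1, ← e2, h]
    have hhalf : (1 / 2 : ℝ) ∈ X01 := ⟨half_mem_A, by norm_num, by norm_num⟩
    have h01 : ∀ x ∈ A, 0 ≤ x → x < 1 → S.kk c0 (1 / 2) ∈ S.Fix x := by
      intro x hx x0 x1
      rcases x0.eq_or_lt with rfl | x0
      · intro e he
        obtain ⟨e', he', h1⟩ := S.Hs_surj hc0 he
        obtain ⟨j, hj⟩ := S.hker (e * e'⁻¹) (by rw [map_mul, map_inv, h1, mul_inv_cancel])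
        refine ⟨j, ?_⟩
        have h2 : S.σ e' (S.kk c0 (1 / 2)) = S.kk c0 (1 / 2) := by
          rw [S.kk_equiv he'.2 half_mem_A]
          exact hconst _ (G0_maps he'.1 hhalf) _ hhalf
        rw [← hj, ← h2, ← S.σ_mul (e * e'⁻¹), inv_mul_cancel_right, h2]
      · rw [hconst _ hhalf x ⟨hx, x0, x1⟩]
        exact (S.kk_mem c0 hx).1
    refine S.of_global_fix (c := S.kk c0 (1 / 2)) fun x hx e he => ?_
    refine h01 (Int.fract x) (fract_mem_A.2 hx) (Int.fract_nonneg x) (Int.fract_lt_one x) e ?_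
    have := Gx_add_int he (-⌊x⌋)
    rwa [Int.cast_neg, ← sub_eq_add_neg] at this
  · exfalso
    refine elim_of (S.p.comp (S.Hs c0).subtype) (fun e => e.2.1) hsurj
      (negConj.comp (S.σ.comp (S.Hs c0).subtype)) (fun e => ?_) (fun x => -S.kk c0 x)
      (-(c0 + 1)) (-c0) ?_ ?_ ?_
    · show ContDiff ℝ 1 (fun x => -S.σ e (-x))
      exact ((S.hC1 e).comp contDiff_neg).neg
    · intro a ha b hb hab
      obtain ⟨e, e1, e2⟩ := tr2 a ha b hb hab
      show -S.kk c0 a < -S.kk c0 b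
      rw [← e1, ← e2]
      exact neg_lt_neg ((S.σ e).strictMono h)
    · exact fun x hx => ⟨neg_le_neg (S.kk_le c0 hx.1), neg_le_neg (S.kk_mem c0 hx.1).2⟩
    · intro e x hx
      show -S.σ e (- -S.kk c0 x) = _
      rw [neg_neg, S.kk_equiv e.2.2 hx.1]
      rfl

end Ext

end Pool.Agent.Lib.MP_9d59aa_al
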