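import Pool.Agent.Lib.MP_9d59aa_al.Basic

open Filter Topology Set

namespace Pool.Agent.Lib.MP_9d59aa_al

noncomputable def i2 (x : ℝ) : ℤ := ⌈2 * x⌉ - 1
noncomputable def i3 (x : ℝ) : ℤ := ⌈3 * x⌉ - 1
noncomputable def Dm (x : ℝ) : ℝ := 2 * x - i2 x
noncomputable def Tm (x : ℝ) : ℝ := 3 * x - i3 x

lemma i2_lt (x : ℝ) : (i2 x : ℝ) < 2 * x := by
  have := Int.ceil_lt_add_one (2 * x)
  simp only [i2]; push_cast; linarith
lemma i2_ge (x : ℝ) : 2 * x ≤ i2 x + 1 := by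
  have := Int.le_ceil (2 * x)
  simp only [i2]; push_cast; linarith
lemma i3_lt (x : ℝ) : (i3 x : ℝ) < 3 * x := by
  have := Int.ceil_lt_add_one (3 * x)
  simp only [i3]; push_cast; linarith
lemma i3_ge (x : ℝ) : 3 * x ≤ i3 x + 1 := by
  have := Int.le_ceil (3 * x)
  simp only [i3]; push_cast; linarith

lemma Dm_pos (x : ℝ) : 0 < Dm x := by have := i2_lt x; simp only [Dm]; linarith
lemma Dm_le (x : ℝ) : Dm x ≤ 1 := by have := i2_ge x; simp only [Dm]; linarith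
lemma Tm_pos (x : ℝ) : 0 < Tm x := by have := i3_lt x; simp only [Tm]; linarith
lemma Tm_le (x : ℝ) : Tm x ≤ 1 := by have := i3_ge x; simp only [Tm]; linarith

lemma i2_range {x : ℝ} (h0 : 0 < x) (h1 : x ≤ 1) : 0 ≤ i2 x ∧ i2 x ≤ 1 := by
  have a := i2_lt x
  have b := i2_ge x
  constructor
  · have : (-1 : ℝ) < i2 x := by linarith
    have : (-1 : ℤ) < i2 x := by exact_mod_cast this
    omega
  · have : (i2 x : ℝ) < 2 := by linarith
    have : i2 x < 2 := by exact_mod_cast this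
    omega

lemma i3_range {x : ℝ} (h0 : 0 < x) (h1 : x ≤ 1) : 0 ≤ i3 x ∧ i3 x ≤ 2 := by
  have a := i3_lt x
  have b := i3_ge x
  constructor
  · have : (-1 : ℝ) < i3 x := by linarith
    have : (-1 : ℤ) < i3 x := by exact_mod_cast this
    omega
  · have : (i3 x : ℝ) < 3 := by linarith
    have : i3 x < 3 := by exact_mod_cast this
    omega

lemma i2_eq {x : ℝ} {i : ℤ} (h0 : (i : ℝ) < 2 * x) (h1 : 2 * x ≤ i + 1) : i2 x = i := by
  have : ⌈2 * x⌉ = i + 1 := Int.ceil_eq_iff.2 ⟨by push_cast; linarith, by push_cast; linarith⟩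
  simp [i2, this]

lemma i3_eq {x : ℝ} {i : ℤ} (h0 : (i : ℝ) < 3 * x) (h1 : 3 * x ≤ i + 1) : i3 x = i := by
  have : ⌈3 * x⌉ = i + 1 := Int.ceil_eq_iff.2 ⟨by push_cast; linarith, by push_cast; linarith⟩
  simp [i3, this]

lemma Dm_Tm (x : ℝ) : Dm (Tm x) = Tm (Dm x) := by
  have h1 := Dm_pos (Tm x)
  have h2 := Dm_le (Tm x)
  have h3 := Tm_pos (Dm x)
  have h4 := Tm_le (Dm x)
  have e : Dm (Tm x) - Tm (Dm x) = ((3 * i2 x + i3 (Dm x) - 2 * i3 x - i2 (Tm x) : ℤ) : ℝ) := by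
    push_cast
    conv_lhs => rw [Dm, Tm, Tm.eq_1 (Dm x)]
    conv_lhs => rw [← Tm.eq_1 x]
    simp only [Dm, Tm]
    ring
  set m : ℤ := 3 * i2 x + i3 (Dm x) - 2 * i3 x - i2 (Tm x)
  have a : (m : ℝ) < 1 := by linarith
  have b : (-1 : ℝ) < m := by linarith
  have a' : m < 1 := by exact_mod_cast a
  have b' : -1 < m := by exact_mod_cast b
  have : m = 0 := by omega
  rw [this] at e
  simp at e
  linarith

lemma Tm_one : Tm 1 = 1 := by
  rw [Tm, i3_eq (i := 2) (by norm_num) (by norm_num)]; norm_num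

lemma Tm_mem_A {x : ℝ} (hx : x ∈ A) : Tm x ∈ A :=
  A.sub_mem (A.mul_mem three_mem_A hx) (intCast_mem A _)

noncomputable def pt (n j : ℕ) : ℝ := ((j : ℝ) + 1) / 2 ^ n

lemma pt_pos (n j : ℕ) : 0 < pt n j := by unfold pt; positivity

lemma pt_le {n j : ℕ} (h : j < 2 ^ n) : pt n j ≤ 1 := by
  unfold pt
  rw [div_le_one (by positivity)]
  exact_mod_cast h

lemma pt_mem_A (n j : ℕ) : pt n j ∈ A := by
  have : pt n j = ((j + 1 : ℕ) : ℝ) * (1 / 2) ^ n := by
    unfold pt; push_cast; rw [one_div, inv_pow]; rfl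
  rw [this]
  exact A.mul_mem (natCast_mem A _) (A.pow_mem half_mem_A n)

noncomputable def Sm (n : ℕ) (F : ℝ → ℝ) : ℝ := ∑ j ∈ Finset.range (2 ^ n), F (pt n j)

lemma Sm_Dm (n : ℕ) (F : ℝ → ℝ) : Sm (n + 1) (fun x => F (Dm x)) = 2 * Sm n F := by
  unfold Sm
  rw [pow_succ, mul_two, Finset.sum_range_add, two_mul]
  have h2 : (0 : ℝ) < 2 ^ n := by positivity
  congr 1
  · apply Finset.sum_congr rfl
    intro j hj
    rw [Finset.mem_range] at hj
    show F (Dm (pt (n + 1) j)) = _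
    congr 1
    have e : 2 * pt (n + 1) j = pt n j := by unfold pt; field_simp; ring
    rw [Dm, i2_eq (i := 0) (by rw [e]; simpa using pt_pos n j) (by rw [e]; simpa using pt_le hj), e]
    simp
  · apply Finset.sum_congr rfl
    intro j hj
    rw [Finset.mem_range] at hj
    show F (Dm (pt (n + 1) (2 ^ n + j))) = _
    congr 1
    have e : 2 * pt (n + 1) (2 ^ n + j) = pt n j + 1 := by
      unfold pt; push_cast; field_simp; ring
    have a := pt_pos n j
    have b := pt_le hj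
    rw [Dm, i2_eq (i := 1) (by rw [e]; push_cast; linarith) (by rw [e]; push_cast; linarith), e]
    simp

lemma Tm_pt (n j : ℕ) : Tm (pt n j) = pt n ((3 * j + 2) % 2 ^ n) := by
  have h2 : (0 : ℝ) < 2 ^ n := by positivity
  have hd := Nat.div_add_mod (3 * j + 2) (2 ^ n)
  have hlt : (3 * j + 2) % 2 ^ n < 2 ^ n := Nat.mod_lt _ (by positivity)
  set i := (3 * j + 2) / 2 ^ n
  set r := (3 * j + 2) % 2 ^ n
  have hd' : (2 : ℝ) ^ n * i + r = 3 * j + 2 := by exact_mod_cast hd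
  have e : 3 * pt n j = pt n r + i := by
    unfold pt; field_simp; linarith
  have a := pt_pos n r
  have b := pt_le hlt
  rw [Tm, i3_eq (i := i) (by rw [e]; push_cast; linarith) (by rw [e]; push_cast; linarith), e]
  simp

lemma Sm_Tm (n : ℕ) (F : ℝ → ℝ) : Sm n (fun x => F (Tm x)) = Sm n F := by
  unfold Sm
  simp only [Tm_pt]
  have hmaps : ∀ j ∈ Finset.range (2 ^ n), (3 * j + 2) % 2 ^ n ∈ Finset.range (2 ^ n) :=
    fun j _ => Finset.mem_range.2 (Nat.mod_lt _ (by positivity))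
  have hinj : Set.InjOn (fun j => (3 * j + 2) % 2 ^ n) (Finset.range (2 ^ n) : Set ℕ) := by
    intro a ha b hb hab
    simp only [Finset.coe_range, mem_Iio] at ha hb
    have h1 : 3 * a + 2 ≡ 3 * b + 2 [MOD 2 ^ n] := hab
    have h2 : 3 * a ≡ 3 * b [MOD 2 ^ n] := Nat.ModEq.add_right_cancel' 2 h1
    have h3 : a ≡ b [MOD 2 ^ n] :=
      Nat.ModEq.cancel_left_of_coprime (by
        have : Nat.Coprime (2 ^ n) 3 := Nat.Coprime.pow_left n (by norm_num)
        exact this) h2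
    exact Nat.ModEq.eq_of_lt_of_lt h3 ha hb
  exact Finset.sum_nbij (fun j => (3 * j + 2) % 2 ^ n) hmaps hinj
    (Finset.surjOn_of_injOn_of_card_le _ hmaps hinj le_rfl) (fun _ _ => rfl)

lemma Sm_add (n : ℕ) (F G : ℝ → ℝ) : Sm n (fun x => F x + G x) = Sm n F + Sm n G := by
  unfold Sm; exact Finset.sum_add_distrib

lemma Sm_sub (n : ℕ) (F G : ℝ → ℝ) : Sm n (fun x => F x - G x) = Sm n F - Sm n G := by
  unfold Sm; exact Finset.sum_sub_distrib _ _

lemma Sm_const (n : ℕ) (c : ℝ) : Sm n (fun _ => c) = 2 ^ n * c := by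
  unfold Sm; simp

lemma Sm_mul (n : ℕ) (c : ℝ) (F : ℝ → ℝ) : Sm n (fun x => c * F x) = c * Sm n F := by
  unfold Sm; rw [Finset.mul_sum]

lemma Sm_congr {n : ℕ} {F G : ℝ → ℝ} (H : ∀ x ∈ A, 0 < x → x ≤ 1 → F x = G x) :
    Sm n F = Sm n G := by
  unfold Sm
  exact Finset.sum_congr rfl fun j hj =>
    H _ (pt_mem_A n j) (pt_pos n j) (pt_le (Finset.mem_range.1 hj))

lemma Sm_le {n : ℕ} {F G : ℝ → ℝ} (H : ∀ x ∈ A, 0 < x → x ≤ 1 → F x ≤ G x) :
    Sm n F ≤ Sm n G := by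
  unfold Sm
  exact Finset.sum_le_sum fun j hj =>
    H _ (pt_mem_A n j) (pt_pos n j) (pt_le (Finset.mem_range.1 hj))

lemma Sm_telescope (n : ℕ) (F : ℝ → ℝ) :
    Sm n (fun x => F x - F (x - 1 / 2 ^ n)) = F 1 - F 0 := by
  unfold Sm
  have := Finset.sum_range_sub (fun j : ℕ => F ((j : ℝ) / 2 ^ n)) (2 ^ n)
  have h2 : (0 : ℝ) < 2 ^ n := by positivity
  rw [show ((2 ^ n : ℕ) : ℝ) / 2 ^ n = 1 by push_cast; field_simp,
    show ((0 : ℕ) : ℝ) / 2 ^ n = 0 by simp] at this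
  rw [← this]
  apply Finset.sum_congr rfl
  intro j _
  unfold pt
  push_cast
  congr 2
  ring

lemma Sm_zero (F : ℝ → ℝ) : Sm 0 F = F 1 := by
  unfold Sm pt; simp

/-- the averaging identity for a cocycle over the commuting maps x2, x3 -/
lemma cocycle_sum {u v : ℝ → ℝ}
    (H : ∀ x ∈ A, 0 < x → x ≤ 1 → u (Tm x) + v x = v (Dm x) + u x) (h1 : v 1 = 0) (n : ℕ) :
    Sm n v = 0 := by
  induction n with
  | zero => rw [Sm_zero, h1]
  | succ n ih =>
    have := Sm_congr (n := n + 1) H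
    rw [Sm_add, Sm_add, Sm_Tm, Sm_Dm, ih] at this
    linarith

lemma log_add_ge {p q : ℝ} (hp : 0 < p) (hq : 0 < q) :
    Real.log 2 + (Real.log p + Real.log q) / 2 ≤ Real.log (p + q) := by
  have h1 : Real.log (2 ^ 2 * (p * q)) ≤ Real.log ((p + q) ^ 2) :=
    Real.log_le_log (by positivity) (by nlinarith [sq_nonneg (p - q)])
  rw [Real.log_mul (by positivity) (by positivity), Real.log_pow, Real.log_pow,
    Real.log_mul hp.ne' hq.ne'] at h1
  push_cast at h1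
  linarith

lemma unif_bound {φ : ℝ → ℝ} (hφ : Continuous φ) (lo hi : ℝ) {ε : ℝ} (hε : 0 < ε) :
    ∃ C : ℝ, 0 ≤ C ∧ ∀ z ∈ Icc lo hi, ∀ w ∈ Icc lo hi, |φ z - φ w| ≤ ε + C * |z - w| := by
  have hu := isCompact_Icc.uniformContinuousOn_of_continuous (hφ.continuousOn (s := Icc lo hi))
  obtain ⟨δ, hδ, H⟩ := Metric.uniformContinuousOn_iff.1 hu ε hε
  obtain ⟨M, hM⟩ := isCompact_Icc.exists_bound_of_continuousOn (hφ.continuousOn (s := Icc lo hi))
  refine ⟨2 * |M| / δ, by positivity, fun z hz w hw => ?_⟩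
  by_cases h : dist z w < δ
  · have := H z hz w hw h
    rw [Real.dist_eq] at this
    have : 0 ≤ 2 * |M| / δ * |z - w| := by positivity
    linarith
  · rw [not_lt, Real.dist_eq] at h
    have h1 := hM z hz
    have h2 := hM w hw
    rw [Real.norm_eq_abs] at h1 h2
    have h3 : |φ z - φ w| ≤ 2 * |M| := by
      have := abs_sub (φ z) (φ w)
      have := le_abs_self M
      linarith
    have h4 : 2 * |M| ≤ 2 * |M| / δ * |z - w| := by
      rw [div_mul_eq_mul_div, le_div_iff₀ hδ]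
      gcongr
    linarith

lemma deriv_eq_of_accPt {f g : ℝ → ℝ} (hf : Differentiable ℝ f) (hg : Differentiable ℝ g)
    {S : Set ℝ} {c : ℝ} (hS : AccPt c (𝓟 S)) (H : EqOn f g S) : deriv f c = deriv g c := by
  have hc : f c = g c :=
    (H.closure hf.continuous hg.continuous) (mem_closure_iff_clusterPt.2 hS.clusterPt)
  have h1 : HasDerivWithinAt f (deriv f c) S c := (hf c).hasDerivAt.hasDerivWithinAt
  have h2 : HasDerivWithinAt f (deriv g c) S c :=
    (hg c).hasDerivAt.hasDerivWithinAt.congr H hc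
  exact hS.uniqueDiffWithinAt.eq_deriv S h1 h2

end Pool.Agent.Lib.MP_9d59aa_al
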